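import Pool.Agent.Lib_helper4.SadG.Equiv

/-! Ladders live on points that are not approachable. -/

open Cardinal Order Set Ordinal

set_option linter.unusedSectionVars false

namespace SadG

open Sad

/-- `δ` is approachable with respect to the sequence `a`: there is an unbounded `H ⊆ δ` that meets
every `x < δ` in at most `ν` points, and all the sets `H ∩ x`, `x < δ`, occur among the `a ξ`,
`ξ < δ`. -/
def ApproachG {β : Ordinal.{0}} (a : KK β → Set (KK β)) (δ : KK β) : Prop :=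
  ∃ H ⊆ Iio δ, (∀ x < δ, ∃ y ∈ H, x ≤ y) ∧ (∀ x < δ, #(H ∩ Iio x : Set (KK β)) ≤ ℵ_ β) ∧
    ∀ x < δ, ∃ ξ < δ, a ξ = H ∩ Iio x

theorem stationary_not_approach (gch : GCH) {β : Ordinal.{0}} {S : Set (KK β)}
    {L : KK β → Set (KK β)} (hS : IsStationary S)
    (hL : ∀ γ ∈ S, #(L γ) = ℵ_ (β + 1) ∧ L γ ⊆ Iio γ ∧
      ∀ δ < γ, #(L γ ∩ Iio δ : Set (KK β)) ≤ ℵ_ β)
    (hLL : ∀ γ ∈ S, ∀ γ' ∈ S, γ ≠ γ' → #(L γ ∩ L γ' : Set (KK β)) < ℵ_ β)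
    (a : KK β → Set (KK β)) : IsStationary {δ ∈ S | ¬ ApproachG a δ} := by
  classical
  have h0 := aleph0_lt_cof_K (β + (ℵ_ β).ord)
  have h0β : ℵ₀ ≤ ℵ_ β := aleph0_le_aleph β
  choose W hWm hWc hWU using fun δ : KK β =>
    exists_layersG le_rfl (isSuccLimit_nu β) (Iio δ) (Iio_K _ δ)
  let M : KK β → NG β → Set (KK β) := fun ξ i => ⋃ y ∈ a ξ, W y i
  have hM : ∀ ξ, #(a ξ) ≤ ℵ_ β → ∀ i, #(M ξ i) ≤ ℵ_ (β + ty i + 1) := by
    intro ξ hξ i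
    refine mk_biUnion_le' (aleph0_le_aleph _) (hξ.trans ?_) _ (fun y _ => hWc y i)
    rw [aleph_le_aleph, add_assoc]
    exact le_self_add
  have hinj : InjOn L S := injOn_of_interG (fun x hx => (hL x hx).1) hLL
  have hAD : ADn (ℵ_ β) (L '' S) := by
    rintro _ ⟨x, hx, rfl⟩ _ ⟨y, hy, rfl⟩ hne
    exact hLL x hx y hy (fun h => hne (by rw [h]))
  have hb : ∀ ξ : KK β, ∃ b' : KK β, ∀ δ ∈ S, #(a ξ) ≤ ℵ_ β →
      (∃ i, ℵ_ β ≤ #(L δ ∩ M ξ i : Set (KK β))) → δ < b' := by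
    intro ξ
    by_cases hξ : #(a ξ) ≤ ℵ_ β
    · have hcard : #{δ ∈ S | ∃ i, ℵ_ β ≤ #(L δ ∩ M ξ i : Set (KK β))} ≤
          ℵ_ (β + (ℵ_ β).ord) := by
        have hsub : {δ ∈ S | ∃ i, ℵ_ β ≤ #(L δ ∩ M ξ i : Set (KK β))} ⊆
            ⋃ i, {δ ∈ S | ℵ_ β ≤ #(L δ ∩ M ξ i : Set (KK β))} := by
          rintro δ ⟨hδ, n, hn⟩
          exact mem_iUnion.2 ⟨n, hδ, hn⟩
        refine (mk_le_mk_of_subset hsub).trans ?_
        refine mk_iUnion_le' (aleph0_le_aleph _) ((mk_toType_le le_rfl).trans aleph_le_add') _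
          (fun i => ?_)
        have h1 := count_succ gch hAD (ty i) (M ξ i) (hM ξ hξ i)
        rw [← mk_image_eq_of_injOn L _ (hinj.mono (fun x hx => hx.1))]
        refine ((mk_le_mk_of_subset ?_).trans h1).trans ?_
        · rintro _ ⟨δ, ⟨hδ, hn⟩, rfl⟩
          exact ⟨⟨δ, hδ, rfl⟩, hn⟩
        · rw [add_assoc]
          exact aleph_le_add (ty_add_one_lt (isSuccLimit_nu β) i).le
      obtain ⟨b', hb'⟩ := exists_bound (hcard.trans_lt (aleph_lt_cof_K _))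
      exact ⟨b', fun δ hδ _ hn => hb' δ ⟨hδ, hn⟩⟩
    · exact ⟨Classical.arbitrary _, fun δ _ h _ => absurd h hξ⟩
  choose b hb using hb
  intro C hC
  have hclub : IsClub (C ∩ {γ | ∀ x < γ, b x < γ}) :=
    hC.inter h0.ne' (isClub_fun h0 (fun x => (Iio_K _ x).trans_lt (aleph_lt_cof_K _)) b)
  obtain ⟨δ, hδS, hδC, hδb⟩ := hS hclub
  refine ⟨δ, ⟨hδS, ?_⟩, hδC⟩
  rintro ⟨H, hHδ, hHu, hHs, hHa⟩
  obtain ⟨hL1, hL2, hL3⟩ := hL δ hδS
  have hne : Nonempty (NG β) := by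
    rw [← mk_ne_zero_iff, mk_ord_toType]; exact (aleph_pos _).ne'
  have hup : ∀ x < δ, ∃ y ∈ H, x < y := by
    intro x hx
    obtain ⟨x', hx', hxx'⟩ := cf_of_ladderG hL1 hL2 hL3 (fun _ => x) (fun _ => hx)
    obtain ⟨y, hy, hxy⟩ := hHu x' hx'
    exact ⟨y, hy, (hxx' (Classical.arbitrary _)).trans_le hxy⟩
  have wf : WellFounded ((· < ·) : KK β → KK β → Prop) := wellFounded_lt
  have hmin : ∀ x < δ, ∃ y ∈ H, x < y ∧ ∀ z ∈ H, x < z → y ≤ z := by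
    intro x hx
    obtain ⟨y, hy, hxy⟩ := hup x hx
    have hne' : {y | y ∈ H ∧ x < y}.Nonempty := ⟨y, hy, hxy⟩
    refine ⟨wf.min _ hne', (wf.min_mem {y | y ∈ H ∧ x < y} hne').1,
      (wf.min_mem {y | y ∈ H ∧ x < y} hne').2, fun z hz hxz => ?_⟩
    exact not_lt.1 (wf.not_lt_min {y | y ∈ H ∧ x < y} (show z ∈ {y | y ∈ H ∧ x < y} from ⟨hz, hxz⟩))
  choose! h hh1 hh2 hh3 using hmin
  have hidx : ∀ l ∈ L δ, ∃ i, l ∈ W (h l) i := by
    intro l hl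
    have : l ∈ ⋃ i, W (h l) i := by
      rw [← hWU]; exact hh2 l (hL2 hl)
    exact mem_iUnion.1 this
  choose! idx hidx using hidx
  obtain ⟨i, hi⟩ := exists_class hL1 idx
  set L' := {x ∈ L δ | idx x = i} with hL'
  have hbig : ∃ x < δ, ℵ_ β ≤ #{l ∈ L' | h l < x} := by
    by_contra hcon
    push Not at hcon
    have : #L' ≤ ℵ_ β := by
      refine mk_le_of_segments (fun l hl => ?_)
      have hlδ : l < δ := hL2 hl.1
      have hhl : h l < δ := hHδ (hh1 l hlδ)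
      have hhhl : h (h l) < δ := hHδ (hh1 _ hhl)
      refine (mk_le_mk_of_subset ?_).trans_lt (hcon (h (h l)) hhhl)
      rintro l' ⟨hl', hl'l⟩
      refine ⟨hl', ?_⟩
      have h1 : h l' ≤ h l := hh3 l' (hL2 hl'.1) (h l) (hh1 l hlδ) (lt_trans hl'l (hh2 l hlδ))
      exact h1.trans_lt (hh2 _ hhl)
    rw [hi] at this
    exact absurd lt_aleph_succ (not_lt.2 this)
  obtain ⟨x, hx, hxbig⟩ := hbig
  obtain ⟨ξ, hξ, haξ⟩ := hHa x hx
  have hlt := hb ξ δ hδS (by rw [haξ]; exact hHs x hx) ⟨i, hxbig.trans (mk_le_mk_of_subset ?_)⟩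
  · exact lt_asymm hlt (hδb ξ hξ)
  · rintro l ⟨hl, hlx⟩
    refine ⟨hl.1, ?_⟩
    have h1 : h l ∈ a ξ := by
      rw [haξ]; exact ⟨hh1 l (hL2 hl.1), hlx⟩
    refine mem_biUnion h1 ?_
    have := hidx l hl.1
    rwa [hl.2] at this

/-- stationary ladders on points that are not approachable with respect to `a` -/
def LSoff {β : Ordinal.{0}} (a : KK β → Set (KK β)) : Prop :=
  ∃ (S : Set (KK β)) (L : KK β → Set (KK β)), IsStationary S ∧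
    (∀ γ ∈ S, ¬ ApproachG a γ ∧ #(L γ) = ℵ_ (β + 1) ∧ L γ ⊆ Iio γ ∧
      ∀ δ < γ, #(L γ ∩ Iio δ : Set (KK β)) ≤ ℵ_ β) ∧
    ∀ γ ∈ S, ∀ γ' ∈ S, γ ≠ γ' → #(L γ ∩ L γ' : Set (KK β)) < ℵ_ β

theorem LSoff_of_ladder (gch : GCH) {β : Ordinal.{0}} (h : LSn β) (a : KK β → Set (KK β)) :
    LSoff a := by
  obtain ⟨S, L, hS, hL, hLL⟩ := h
  exact ⟨_, L, stationary_not_approach gch hS hL hLL a,
    fun γ hγ => ⟨hγ.2, hL γ hγ.1⟩, fun γ hγ γ' hγ' hne => hLL γ hγ.1 γ' hγ'.1 hne⟩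

theorem ladder_of_LSoff {β : Ordinal.{0}} {a : KK β → Set (KK β)} (h : LSoff a) : LSn β := by
  obtain ⟨S, L, hS, hL, hLL⟩ := h
  exact ⟨S, L, hS, fun γ hγ => (hL γ hγ).2, hLL⟩

end SadG
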