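import Pool.Agent.Lib_helper4.SadG.Basic

/-! Families with at most as many members as each member has elements. -/

open Cardinal Order Set Ordinal

set_option linter.unusedSectionVars false

namespace SadG

open Sad

variable {α : Type}

/-- families indexed by an order with initial segments of size at most `ν` -/
theorem EDn.of_rank {ν : Cardinal.{0}} (h0 : ℵ₀ ≤ ν) {ι : Type} [LinearOrder ι]
    (hι : ∀ i : ι, #(Iio i) ≤ ν) {𝒜 : Set (Set α)} (hAD : ADn ν 𝒜) (g : Set α → ι)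
    (hg : InjOn g 𝒜) : EDn ν 𝒜 := by
  refine ⟨fun A => ⋃ B ∈ {B ∈ 𝒜 | g B < g A}, A ∩ B, fun A hA => ?_, ?_⟩
  · have hc : #{B ∈ 𝒜 | g B < g A} ≤ ν := by
      rw [← mk_image_eq_of_injOn g _ (hg.mono (fun B hB => hB.1))]
      refine (mk_le_mk_of_subset ?_).trans (hι (g A))
      rintro _ ⟨B, hB, rfl⟩
      exact hB.2
    refine mk_biUnion_le' h0 hc _ (fun B hB => ?_)
    exact (hAD A hA B hB.1 (by rintro rfl; exact lt_irrefl _ hB.2)).le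
  · have key : ∀ A ∈ 𝒜, ∀ B ∈ 𝒜, g A < g B →
        Disjoint (A \ ⋃ D ∈ {D ∈ 𝒜 | g D < g A}, A ∩ D)
          (B \ ⋃ D ∈ {D ∈ 𝒜 | g D < g B}, B ∩ D) := by
      intro A hA B hB hlt
      rw [Set.disjoint_left]
      rintro x ⟨hxA, -⟩ ⟨hxB, hx⟩
      exact hx (mem_biUnion (show A ∈ {D ∈ 𝒜 | g D < g B} from ⟨hA, hlt⟩) ⟨hxB, hxA⟩)
    intro A hA B hB hne
    rcases lt_trichotomy (g A) (g B) with h | h | h
    · exact key A hA B hB h
    · exact absurd (hg hA hB h) hne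
    · exact (key B hB A hA h).symm

theorem EDn.base {ν : Cardinal.{0}} (h0 : ℵ₀ ≤ ν) {𝒜 : Set (Set α)} (hAD : ADn ν 𝒜)
    (hc : #𝒜 ≤ succ ν) : EDn ν 𝒜 := by
  have : Nonempty (succ ν).ord.ToType := by
    rw [← mk_ne_zero_iff, mk_ord_toType]
    exact ((bot_le.trans_lt (Order.lt_succ ν))).ne'
  obtain ⟨g, hg⟩ := exists_injOn (γ := (succ ν).ord.ToType) (s := 𝒜) (by rwa [mk_ord_toType])
  exact EDn.of_rank h0 (fun i => Iio_toType_le rfl i) hAD g hg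

theorem Tr.of_EDn {ν : Cardinal.{0}} (h0 : ℵ₀ ≤ ν) {𝒜 : Set (Set α)} (h1 : ∀ A ∈ 𝒜, ν < #A)
    (h : EDn ν 𝒜) : Tr ν 𝒜 := by
  obtain ⟨F, hF1, hF2⟩ := h
  have hne : ∀ A ∈ 𝒜, (A \ F A).Nonempty := by
    intro A hA
    by_contra hcon
    rw [not_nonempty_iff_eq_empty, sdiff_eq_empty] at hcon
    exact absurd ((mk_le_mk_of_subset hcon).trans (hF1 A hA)) (not_le.2 (h1 A hA))
  rcases isEmpty_or_nonempty α with hα | hα
  · exact ⟨∅, fun A hA => (hne A hA).elim (fun x _ => hα.elim x)⟩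
  choose! t ht using hne
  refine ⟨t '' 𝒜, fun A hA => ⟨?_, ?_⟩⟩
  · rw [pos_iff_ne_zero, mk_ne_zero_iff]
    exact ⟨⟨t A, ⟨A, hA, rfl⟩, (ht A hA).1⟩⟩
  · have hsub : (t '' 𝒜 ∩ A) ⊆ insert (t A) (F A) := by
      rintro _ ⟨⟨B, hB, rfl⟩, hBA⟩
      by_cases hAB : B = A
      · left; rw [hAB]
      · right
        by_contra hn
        exact Set.disjoint_left.1 (hF2 B hB A hA hAB) (ht B hB) ⟨hBA, hn⟩
    refine (mk_le_mk_of_subset hsub).trans (mk_insert_le.trans ?_)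
    refine (add_le_add (hF1 A hA) (one_le_aleph0.trans h0)).trans ?_
    exact (Cardinal.add_eq_self h0).le

/-- **the freezing construction** -/
theorem Tr.base {ν κ : Cardinal.{0}} (h0 : ℵ₀ ≤ ν) (hν : ν < κ) {𝒜 : Set (Set α)}
    (hAD : ADn ν 𝒜) (h1 : ∀ A ∈ 𝒜, #A = κ) (hc : #𝒜 ≤ κ)
    (hcount : ∀ X : Set α, #X < κ → #{A ∈ 𝒜 | ν ≤ #(A ∩ X : Set α)} < κ) : Tr ν 𝒜 := by
  classical
  have h0κ : ℵ₀ ≤ κ := h0.trans hν.le
  rcases 𝒜.eq_empty_or_nonempty with hA0 | ⟨A₀, hA₀⟩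
  · exact ⟨∅, fun A hA => by rw [hA0] at hA; exact absurd hA (Set.notMem_empty A)⟩
  have hα : Nonempty α := by
    have : #A₀ ≠ 0 := by rw [h1 A₀ hA₀]; exact (aleph0_pos.trans_le h0κ).ne'
    rw [mk_ne_zero_iff] at this
    obtain ⟨x⟩ := this
    exact ⟨x.1⟩
  -- enumeration
  obtain ⟨E, hE1, hE2⟩ : ∃ E : κ.ord.ToType → Set α, (∀ ξ, E ξ ∈ 𝒜) ∧ ∀ A ∈ 𝒜, ∃ ξ, E ξ = A := by
    have hle : #𝒜 ≤ #(κ.ord.ToType) := by rwa [mk_ord_toType]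
    rw [Cardinal.le_def] at hle
    obtain ⟨g⟩ := hle
    have : Nonempty 𝒜 := ⟨⟨A₀, hA₀⟩⟩
    refine ⟨fun ξ => (Function.invFun g ξ : 𝒜), fun ξ => (Function.invFun g ξ).2, fun A hA => ?_⟩
    refine ⟨g ⟨A, hA⟩, ?_⟩
    show ((Function.invFun g (g ⟨A, hA⟩) : 𝒜) : Set α) = A
    rw [Function.leftInverse_invFun g.injective ⟨A, hA⟩]
  have wf : WellFounded ((· < ·) : κ.ord.ToType → κ.ord.ToType → Prop) := wellFounded_lt
  -- the points chosen before, the frozen members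
  let pre : (ξ : κ.ord.ToType) → ((ζ : κ.ord.ToType) → ζ < ξ → α) → Set α :=
    fun ξ f => {x | ∃ ζ, ∃ h : ζ < ξ, f ζ h = x}
  let fr : Set α → Set α := fun X => ⋃ A ∈ {A ∈ 𝒜 | ν ≤ #(A ∩ X : Set α)}, A
  let step : (ξ : κ.ord.ToType) → ((ζ : κ.ord.ToType) → ζ < ξ → α) → α := fun ξ f =>
    if h : (E ξ ∩ pre ξ f).Nonempty then h.some
    else if h' : (E ξ \ fr (pre ξ f)).Nonempty then h'.some else Classical.arbitrary α
  let t : κ.ord.ToType → α := wf.fix step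
  let P : κ.ord.ToType → Set α := fun ξ => t '' Iio ξ
  have hpre : ∀ ξ, pre ξ (fun ζ _ => t ζ) = P ξ := by
    intro ξ
    ext x
    constructor
    · rintro ⟨ζ, h, rfl⟩; exact ⟨ζ, h, rfl⟩
    · rintro ⟨ζ, h, rfl⟩; exact ⟨ζ, h, rfl⟩
  have ht : ∀ ξ, t ξ = step ξ (fun ζ _ => t ζ) := fun ξ => wf.fix_eq step ξ
  have hPcard : ∀ ξ, #(P ξ) < κ := by
    intro ξ
    refine mk_image_le.trans_lt ?_
    have := mk_Iio_lt ξ (by simp)
    simpa using this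
  have hfree : ∀ ξ, ¬ (E ξ ∩ P ξ).Nonempty → (E ξ \ fr (P ξ)).Nonempty := by
    intro ξ hξ
    by_contra hcon
    rw [not_nonempty_iff_eq_empty, sdiff_eq_empty] at hcon
    have hEP : E ξ ∉ {A ∈ 𝒜 | ν ≤ #(A ∩ P ξ : Set α)} := by
      rintro ⟨-, h⟩
      rw [not_nonempty_iff_eq_empty] at hξ
      rw [hξ, mk_eq_zero] at h
      exact absurd (aleph0_pos.trans_le h0) (not_lt.2 h)
    have hsub : E ξ ⊆ ⋃ A ∈ {A ∈ 𝒜 | ν ≤ #(A ∩ P ξ : Set α)}, E ξ ∩ A := by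
      intro x hx
      have := hcon hx
      simp only [fr, mem_iUnion] at this ⊢
      obtain ⟨A, hA, hxA⟩ := this
      exact ⟨A, hA, hx, hxA⟩
    set ℱ := {A ∈ 𝒜 | ν ≤ #(A ∩ P ξ : Set α)} with hℱ
    have hlt : #(⋃ A ∈ ℱ, E ξ ∩ A : Set α) < κ := by
      set χ := max #ℱ ν with hχ
      have hχκ : χ < κ := max_lt (hcount _ (hPcard ξ)) hν
      refine lt_of_le_of_lt (mk_biUnion_le' (ν := χ) (h0.trans (le_max_right _ _))
        (le_max_left _ _) _ (fun A hA => ?_)) hχκ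
      refine (hAD _ (hE1 ξ) A hA.1 ?_).le.trans (le_max_right _ _)
      rintro rfl
      exact hEP hA
    have := (mk_le_mk_of_subset hsub).trans_lt hlt
    rw [h1 _ (hE1 ξ)] at this
    exact lt_irrefl _ this
  have ht1 : ∀ ξ, (E ξ ∩ P ξ).Nonempty → t ξ ∈ E ξ ∩ P ξ := by
    intro ξ h
    rw [← hpre ξ] at h ⊢
    rw [ht ξ]
    simp only [step]
    rw [dif_pos h]
    exact h.some_mem
  have ht2 : ∀ ξ, ¬ (E ξ ∩ P ξ).Nonempty → t ξ ∈ E ξ \ fr (P ξ) := by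
    intro ξ h
    have h' := hfree ξ h
    rw [← hpre ξ] at h h' ⊢
    rw [ht ξ]
    simp only [step]
    rw [dif_neg h, dif_pos h']
    exact h'.some_mem
  have ht3 : ∀ ξ, t ξ ∈ E ξ := by
    intro ξ
    by_cases h : (E ξ ∩ P ξ).Nonempty
    · exact (ht1 ξ h).1
    · exact (ht2 ξ h).1
  -- first indices
  have hex : ∀ x ∈ range t, ∃ ξ, t ξ = x ∧ x ∉ P ξ := by
    rintro x hx
    have hne : {ξ | t ξ = x}.Nonempty := hx
    refine ⟨wf.min _ hne, wf.min_mem {ξ | t ξ = x} hne, ?_⟩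
    rintro ⟨ζ, hζ, hζx⟩
    exact wf.not_lt_min {ξ | t ξ = x} (show ζ ∈ {ξ | t ξ = x} from hζx) hζ
  have hκne : Nonempty (κ.ord.ToType) := by
    rw [← mk_ne_zero_iff, mk_ord_toType]; exact (aleph0_pos.trans_le h0κ).ne'
  choose! φ hφ1 hφ2 using hex
  refine ⟨range t, fun A hA => ⟨?_, ?_⟩⟩
  · obtain ⟨ξ, rfl⟩ := hE2 A hA
    rw [pos_iff_ne_zero, mk_ne_zero_iff]
    exact ⟨⟨t ξ, ⟨ξ, rfl⟩, ht3 ξ⟩⟩
  · refine mk_le_of_rank (ν := ν) φ ?_ ?_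
    · intro x hx y hy hxy
      rw [← hφ1 x hx.1, ← hφ1 y hy.1, hxy]
    · rintro x ⟨hxT, hxA⟩
      by_contra hge
      rw [not_lt] at hge
      have hsub : (range t ∩ A) ∩ φ ⁻¹' Iio (φ x) ⊆ A ∩ P (φ x) := by
        rintro y ⟨⟨hyT, hyA⟩, hy⟩
        exact ⟨hyA, ⟨φ y, hy, hφ1 y hyT⟩⟩
      have hfrz : A ∈ {A ∈ 𝒜 | ν ≤ #(A ∩ P (φ x) : Set α)} :=
        ⟨hA, hge.trans (mk_le_mk_of_subset hsub)⟩
      have hnot : ¬ (E (φ x) ∩ P (φ x)).Nonempty := by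
        intro h
        have := (ht1 _ h).2
        rw [hφ1 x hxT] at this
        exact hφ2 x hxT this
      have := (ht2 _ hnot).2
      rw [hφ1 x hxT] at this
      exact this (mem_biUnion hfrz hxA)

end SadG
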