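import Pool.Agent.Lib_helper4.Sad.Exact

/-! Families with pairwise intersections smaller than `ν`: transversals, essential
disjointness, gluing, counting (general `ν`). -/

open Cardinal Order Set Ordinal

set_option linter.unusedSectionVars false

namespace SadG

open Sad

variable {α : Type}

/-- pairwise intersections smaller than `ν` -/
def ADn (ν : Cardinal.{0}) (𝒜 : Set (Set α)) : Prop :=
  ∀ A ∈ 𝒜, ∀ B ∈ 𝒜, A ≠ B → #(A ∩ B : Set α) < ν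

/-- a transversal meeting every member in at least one and at most `ν` points -/
def Tr (ν : Cardinal.{0}) (𝒜 : Set (Set α)) : Prop :=
  ∃ T : Set α, ∀ A ∈ 𝒜, 0 < #(T ∩ A : Set α) ∧ #(T ∩ A : Set α) ≤ ν

/-- essentially disjoint -/
def EDn (ν : Cardinal.{0}) (𝒜 : Set (Set α)) : Prop :=
  ∃ F : Set α → Set α, (∀ A ∈ 𝒜, #(F A) ≤ ν) ∧
    ∀ A ∈ 𝒜, ∀ B ∈ 𝒜, A ≠ B → Disjoint (A \ F A) (B \ F B)

/-- removing a set from all members -/
def cut (𝒜 : Set (Set α)) (Z : Set α) : Set (Set α) := (fun A => A \ Z) '' 𝒜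

theorem ADn.mono {ν : Cardinal.{0}} {𝒜 ℬ : Set (Set α)} (h : ADn ν 𝒜) (hs : ℬ ⊆ 𝒜) : ADn ν ℬ :=
  fun A hA B hB => h A (hs hA) B (hs hB)

theorem ADn.cut {ν : Cardinal.{0}} {𝒜 : Set (Set α)} (h : ADn ν 𝒜) (Z : Set α) :
    ADn ν (cut 𝒜 Z) := by
  rintro _ ⟨A, hA, rfl⟩ _ ⟨B, hB, rfl⟩ hne
  refine (mk_le_mk_of_subset ?_).trans_lt (h A hA B hB (fun h => hne (by rw [h])))
  exact inter_subset_inter sdiff_subset sdiff_subset

theorem mk_union_le' {ν : Cardinal.{0}} (h0 : ℵ₀ ≤ ν) {s t : Set α} (hs : #s ≤ ν) (ht : #t ≤ ν) :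
    #(s ∪ t : Set α) ≤ ν :=
  (mk_union_le _ _).trans ((add_le_add hs ht).trans (Cardinal.add_eq_self h0).le)

theorem mk_iUnion_le' {ν : Cardinal.{0}} (h0 : ℵ₀ ≤ ν) {ι : Type} (hι : #ι ≤ ν) (s : ι → Set α)
    (hs : ∀ i, #(s i) ≤ ν) : #(⋃ i, s i) ≤ ν := by
  refine (Cardinal.mk_iUnion_le _).trans ?_
  exact (mul_le_mul' hι (ciSup_le' hs)).trans (Cardinal.mul_eq_self h0).le

theorem mk_biUnion_le' {ν : Cardinal.{0}} (h0 : ℵ₀ ≤ ν) {ι : Type} {I : Set ι} (hι : #I ≤ ν)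
    (s : ι → Set α) (hs : ∀ i ∈ I, #(s i) ≤ ν) : #(⋃ i ∈ I, s i) ≤ ν := by
  rw [biUnion_eq_iUnion]
  exact mk_iUnion_le' h0 hι _ (fun i => hs i i.2)

theorem mk_sdiff_eq {κ ν : Cardinal.{0}} (h0 : ℵ₀ ≤ κ) (hν : ν < κ) {A Z : Set α} (hA : #A = κ)
    (hZ : #(A ∩ Z : Set α) ≤ ν) : #(A \ Z : Set α) = κ := by
  apply le_antisymm
  · rw [← hA]; exact mk_le_mk_of_subset sdiff_subset
  · by_contra hlt
    rw [not_le] at hlt
    have : #A ≤ #(A \ Z : Set α) + #(A ∩ Z : Set α) := by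
      refine (mk_le_mk_of_subset ?_).trans (mk_union_le _ _)
      intro x hx
      by_cases hxZ : x ∈ Z
      · exact Or.inr ⟨hx, hxZ⟩
      · exact Or.inl ⟨hx, hxZ⟩
    rw [hA] at this
    exact absurd this (not_le.2 (add_lt_of_lt h0 hlt (hZ.trans_lt hν)))

theorem cut_card {κ ν : Cardinal.{0}} (h0 : ℵ₀ ≤ κ) (hν : ν < κ) {𝒜 : Set (Set α)} {Z : Set α}
    (h1 : ∀ A ∈ 𝒜, #A = κ) (h2 : ∀ A ∈ 𝒜, #(A ∩ Z : Set α) ≤ ν) :
    ∀ A ∈ cut 𝒜 Z, #A = κ := by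
  rintro _ ⟨A, hA, rfl⟩
  exact mk_sdiff_eq h0 hν (h1 A hA) (h2 A hA)

/-- properties of families that can be glued -/
def Glue (ν : Cardinal.{0}) (P : Set (Set α) → Prop) : Prop :=
  ∀ (ι : Type) (_ : LinearOrder ι) (𝒜 : Set (Set α)) (X : ι → Set α) (ρ : Set α → ι),
    ADn ν 𝒜 → (∀ A ∈ 𝒜, ν < #A) → (∀ A ∈ 𝒜, A ⊆ X (ρ A)) → (∀ A ∈ 𝒜, #(A ∩ ⋃ j ∈ Iio (ρ A), X j : Set α) ≤ ν) →
    (∀ i, P (cut {A ∈ 𝒜 | ρ A = i} (⋃ j ∈ Iio i, X j))) → P 𝒜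

theorem glue_Tr {ν : Cardinal.{0}} (h0 : ℵ₀ ≤ ν) : Glue ν (Tr (α := α) ν) := by
  intro ι _ 𝒜 X ρ _ _ h1 h2 h3
  choose T hT using h3
  refine ⟨⋃ i, (T i ∩ (X i \ ⋃ j ∈ Iio i, X j)), fun A hA => ⟨?_, ?_⟩⟩
  · have h4 := (hT (ρ A) (A \ ⋃ j ∈ Iio (ρ A), X j) ⟨A, ⟨hA, rfl⟩, rfl⟩).1
    refine h4.trans_le (mk_le_mk_of_subset ?_)
    rintro x ⟨hxT, hxA, hx⟩
    exact ⟨mem_iUnion.2 ⟨ρ A, hxT, h1 A hA hxA, hx⟩, hxA⟩
  · have h5 := (hT (ρ A) (A \ ⋃ j ∈ Iio (ρ A), X j) ⟨A, ⟨hA, rfl⟩, rfl⟩).2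
    refine (mk_le_mk_of_subset ?_).trans (mk_union_le' h0 h5 (h2 A hA))
    rintro x ⟨hx, hxA⟩
    obtain ⟨k, hxT, hxX, hxn⟩ := mem_iUnion.1 hx
    rcases lt_trichotomy k (ρ A) with h | h | h
    · exact Or.inr ⟨hxA, mem_biUnion (show k ∈ Iio (ρ A) from h) hxX⟩
    · subst h
      exact Or.inl ⟨hxT, hxA, hxn⟩
    · exact absurd (mem_biUnion (show ρ A ∈ Iio k from h) (h1 A hA hxA)) hxn

theorem glue_EDn {ν : Cardinal.{0}} (h0 : ℵ₀ ≤ ν) : Glue ν (EDn (α := α) ν) := by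
  intro ι _ 𝒜 X ρ hAD hbig h1 h2 h3
  choose F hF1 hF2 using h3
  let Z : ι → Set α := fun i => ⋃ j ∈ Iio i, X j
  refine ⟨fun A => (A ∩ Z (ρ A)) ∪ F (ρ A) (A \ Z (ρ A)), fun A hA => ?_, ?_⟩
  · exact mk_union_le' h0 (h2 A hA) (hF1 (ρ A) _ ⟨A, ⟨hA, rfl⟩, rfl⟩)
  · have key : ∀ A ∈ 𝒜, ∀ B ∈ 𝒜, ρ A < ρ B →
        Disjoint (A \ ((A ∩ Z (ρ A)) ∪ F (ρ A) (A \ Z (ρ A))))
          (B \ ((B ∩ Z (ρ B)) ∪ F (ρ B) (B \ Z (ρ B)))) := by
      intro A hA B hB hlt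
      rw [Set.disjoint_left]
      rintro x ⟨hxA, -⟩ ⟨hxB, hx⟩
      exact hx (Or.inl ⟨hxB, mem_biUnion (show ρ A ∈ Iio (ρ B) from hlt) (h1 A hA hxA)⟩)
    intro A hA B hB hne
    rcases lt_trichotomy (ρ A) (ρ B) with h | h | h
    · exact key A hA B hB h
    · by_cases heq : A \ Z (ρ A) = B \ Z (ρ B)
      · exfalso
        have hle : #A ≤ #(A \ Z (ρ A) : Set α) + #(A ∩ Z (ρ A) : Set α) := by
          refine (mk_le_mk_of_subset ?_).trans (mk_union_le _ _)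
          intro x hx
          by_cases hxZ : x ∈ Z (ρ A)
          · exact Or.inr ⟨hx, hxZ⟩
          · exact Or.inl ⟨hx, hxZ⟩
        have hs : #(A \ Z (ρ A) : Set α) ≤ ν := by
          refine (mk_le_mk_of_subset ?_).trans (hAD A hA B hB hne).le
          intro x hx
          exact ⟨hx.1, (heq ▸ hx : x ∈ B \ Z (ρ B)).1⟩
        have := hle.trans ((add_le_add hs (h2 A hA)).trans (Cardinal.add_eq_self h0).le)
        exact absurd (hbig A hA) (not_lt.2 this)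
      · have := hF2 (ρ A) (A \ Z (ρ A)) ⟨A, ⟨hA, rfl⟩, rfl⟩ (B \ Z (ρ A))
          ⟨B, ⟨hB, h.symm⟩, rfl⟩ (by rw [← h] at heq; exact heq)
        simp only
        rw [← h]
        refine Disjoint.mono ?_ ?_ this
        · rintro x ⟨hx, hx'⟩
          exact ⟨⟨hx, fun hz => hx' (Or.inl ⟨hx, hz⟩)⟩, fun hz => hx' (Or.inr hz)⟩
        · rintro x ⟨hx, hx'⟩
          exact ⟨⟨hx, fun hz => hx' (Or.inl ⟨hx, hz⟩)⟩, fun hz => hx' (Or.inr hz)⟩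
    · exact (key B hB A hA h).symm

/-! ### initial segments -/

/-- a set with initial segments smaller than `ν` has size at most `ν` -/
theorem mk_le_of_segments {κ : Type} [LinearOrder κ] [WellFoundedLT κ] {ν : Cardinal.{0}}
    {T : Set κ} (h : ∀ x ∈ T, #(T ∩ Iio x : Set κ) < ν) : #T ≤ ν := by
  by_contra hlt
  rw [not_le] at hlt
  have h1 : ν.ord < typeLT T := by
    have h2 : (succ ν).ord ≤ typeLT T := by
      rw [Cardinal.ord_le]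
      exact Order.succ_le_of_lt hlt
    exact (Cardinal.ord_lt_ord.2 (Order.lt_succ ν)).trans_le h2
  let x : T := enum ((· < ·) : T → T → Prop) ⟨ν.ord, h1⟩
  have hx : #{y : T // y < x} = ν := by
    have := Ordinal.card_typein (r := ((· < ·) : T → T → Prop)) x
    rw [typein_enum, card_ord] at this
    exact this.symm
  have h3 : #{y : T // y < x} = #(T ∩ Iio (x : κ) : Set κ) := by
    refine Cardinal.mk_congr ⟨fun y => ⟨y.1.1, y.1.2, y.2⟩, fun y => ⟨⟨y.1, y.2.1⟩, y.2.2⟩,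
      fun y => rfl, fun y => rfl⟩
  have h4 := h x x.2
  rw [← h3, hx] at h4
  exact lt_irrefl _ h4

/-- a version with a rank function -/
theorem mk_le_of_rank {κ : Type} [LinearOrder κ] [WellFoundedLT κ] {ν : Cardinal.{0}}
    {T : Set α} (r : α → κ) (hr : InjOn r T)
    (h : ∀ x ∈ T, #(T ∩ r ⁻¹' Iio (r x) : Set α) < ν) : #T ≤ ν := by
  rw [← mk_image_eq_of_injOn r T hr]
  refine mk_le_of_segments ?_
  rintro _ ⟨x, hx, rfl⟩
  refine lt_of_le_of_lt ?_ (h x hx)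
  refine le_trans (mk_le_mk_of_subset ?_) (mk_image_le (f := r))
  rintro _ ⟨⟨y, hy, rfl⟩, hyx⟩
  exact ⟨y, ⟨hy, hyx⟩, rfl⟩

/-! ### counting -/

theorem count_pow {ν η : Cardinal.{0}} {𝒜 : Set (Set α)} (hAD : ADn ν 𝒜) {X : Set α}
    (hX : #X ≤ η) (hη : η ^ ν ≤ η) : #{A ∈ 𝒜 | ν ≤ #(A ∩ X : Set α)} ≤ η := by
  classical
  have hf : ∀ A : {A ∈ 𝒜 | ν ≤ #(A ∩ X : Set α)}, ∃ f : ν.ord.ToType → X,
      Function.Injective f ∧ ∀ i, (f i : α) ∈ (A : Set α) := by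
    intro A
    have h : #(ν.ord.ToType) ≤ #((A : Set α) ∩ X : Set α) := by
      rw [mk_ord_toType]; exact A.2.2
    rw [Cardinal.le_def] at h
    obtain ⟨g⟩ := h
    refine ⟨fun i => ⟨g i, (g i).2.2⟩, ?_, fun i => (g i).2.1⟩
    intro i j hij
    have h5 := congrArg Subtype.val hij
    exact g.injective (Subtype.ext h5)
  choose f hf1 hf2 using hf
  have hinj : Function.Injective f := by
    intro A B hAB
    by_contra hne
    have hne' : (A : Set α) ≠ B := fun h => hne (Subtype.ext h)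
    have hlt := hAD A A.2.1 B B.2.1 hne'
    have hge : ν ≤ #((A : Set α) ∩ B : Set α) := by
      conv_lhs => rw [← mk_ord_toType ν]
      refine Cardinal.mk_le_of_injective (f := fun i => (⟨(f A i : α), hf2 A i, ?_⟩ :
        ((A : Set α) ∩ B : Set α))) ?_
      · rw [hAB]; exact hf2 B i
      · intro i j hij
        have := congrArg Subtype.val hij
        exact hf1 A (Subtype.ext this)
    exact absurd hlt (not_lt.2 hge)
  refine (Cardinal.mk_le_of_injective hinj).trans ?_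
  rw [← Cardinal.power_def, mk_ord_toType]
  exact (Cardinal.power_le_power_right hX).trans hη

theorem pow_aleph_succ (gch : GCH) (o : Ordinal.{0}) {ν : Cardinal.{0}} (hν : ν ≤ ℵ_ o)
    (h0 : ν ≠ 0) : (ℵ_ (o + 1)) ^ ν ≤ ℵ_ (o + 1) := by
  have h : ℵ_ (o + 1) = 2 ^ (ℵ_ o) := by
    rw [gch _ (aleph0_le_aleph o), succ_aleph]
  rw [h, ← Cardinal.power_mul, Cardinal.mul_eq_left (aleph0_le_aleph o) hν h0]

end SadG
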