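import Pool.Agent.Lib_helper4.SadG.Trap

/-! Layers of sets of size `ℵ_(β+a)` and counting of large traces. -/

open Cardinal Order Set Ordinal

set_option linter.unusedSectionVars false

namespace SadG

open Sad

variable {α : Type}

/-- the ordinal of an element of `a.ToType` -/
noncomputable def ty {a : Ordinal.{0}} (i : a.ToType) : Ordinal.{0} :=
  typein ((· < ·) : a.ToType → a.ToType → Prop) i

theorem ty_lt {a : Ordinal.{0}} (i : a.ToType) : ty i < a := typein_lt_self i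

theorem exists_ty {a x : Ordinal.{0}} (h : x < a) : ∃ i : a.ToType, ty i = x := by
  refine ⟨enum ((· < ·) : a.ToType → a.ToType → Prop) ⟨x, by rwa [type_toType]⟩, ?_⟩
  exact typein_enum _ _

theorem ty_le_ty {a : Ordinal.{0}} {i j : a.ToType} : ty i ≤ ty j ↔ i ≤ j := by
  rw [ty, ty, typein_le_typein]
  exact not_lt

theorem mk_Iio_ty {a : Ordinal.{0}} (i : a.ToType) : #(Iio i) = (ty i).card := by
  rw [ty, card_typein]
  rfl

theorem mk_Iic_le {ν : Cardinal.{0}} (h0 : ℵ₀ ≤ ν) {a : Ordinal.{0}} (ha : a ≤ ν.ord)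
    (i : a.ToType) : #(Iic i) ≤ ν := by
  have : Iic i = insert i (Iio i) := by
    ext y; simp [le_iff_eq_or_lt]
  rw [this]
  refine mk_insert_le.trans ?_
  have h1 : #(Iio i) < ν := by
    rw [mk_Iio_ty, ← lt_ord]
    exact (ty_lt i).trans_le ha
  exact (add_lt_of_lt h0 h1 (one_lt_aleph0.trans_le h0)).le

theorem mk_toType_le {ν : Cardinal.{0}} {a : Ordinal.{0}} (ha : a ≤ ν.ord) : #a.ToType ≤ ν := by
  rw [mk_toType]
  have := card_le_card ha
  rwa [card_ord] at this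

theorem mk_toType_lt {ν : Cardinal.{0}} {a : Ordinal.{0}} (ha : a < ν.ord) : #a.ToType < ν := by
  rw [mk_toType]
  exact lt_ord.1 ha

/-- layers -/
theorem exists_layersG {β a : Ordinal.{0}} (ha : a ≤ (ℵ_ β).ord) (hlim : IsSuccLimit a)
    (U : Set α) (h : #U ≤ ℵ_ (β + a)) :
    ∃ Y : a.ToType → Set α, Monotone Y ∧ (∀ i, #(Y i) ≤ ℵ_ (β + ty i + 1)) ∧ U = ⋃ i, Y i := by
  classical
  have h0 : ℵ₀ ≤ ℵ_ β := aleph0_le_aleph β
  let T := Σ i : a.ToType, (ℵ_ (β + ty i)).ord.ToType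
  have hnorm : IsNormal (fun o : Ordinal.{0} => ℵ_ (β + o)) :=
    isNormal_aleph.comp (isNormal_add_right β)
  have hT : ℵ_ (β + a) ≤ #T := by
    rw [Cardinal.mk_sigma]
    rw [hnorm.le_iff_forall_le hlim]
    intro c hc
    obtain ⟨i, rfl⟩ := exists_ty hc
    refine le_trans ?_ (Cardinal.le_sum _ i)
    rw [mk_ord_toType]
  have hne : Nonempty T := by
    rw [← mk_ne_zero_iff]
    intro h0
    rw [h0] at hT
    exact absurd hT (not_le.2 (aleph_pos _))
  obtain ⟨g, hg⟩ := exists_injOn (γ := T) (h.trans hT)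
  refine ⟨fun i => {x ∈ U | (g x).1 ≤ i}, ?_, fun i => ?_, ?_⟩
  · intro i j hij x hx
    exact ⟨hx.1, hx.2.trans hij⟩
  · have hsub : {x ∈ U | (g x).1 ≤ i} ⊆ ⋃ j ∈ Iic i, {x ∈ U | (g x).1 = j} := by
      rintro x ⟨hx, hxi⟩
      exact mem_biUnion (show (g x).1 ∈ Iic i from hxi) ⟨hx, rfl⟩
    refine (mk_le_mk_of_subset hsub).trans ?_
    have hinf : ℵ₀ ≤ ℵ_ (β + ty i + 1) := aleph0_le_aleph _
    refine mk_biUnion_le' hinf ?_ _ (fun j hj => ?_)
    · refine (mk_Iic_le h0 ha i).trans ?_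
      rw [aleph_le_aleph, add_assoc]
      exact le_self_add
    · have h1 : #{x ∈ U | (g x).1 = j} ≤ #(range
          (fun b : (ℵ_ (β + ty j)).ord.ToType => (⟨j, b⟩ : T))) := by
        rw [← mk_image_eq_of_injOn g _ (hg.mono (fun x hx => hx.1))]
        refine mk_le_mk_of_subset ?_
        rintro _ ⟨x, ⟨-, hx⟩, rfl⟩
        rcases hgx : g x with ⟨a, b⟩
        rw [hgx] at hx
        simp only at hx
        subst hx
        exact ⟨b, rfl⟩
      refine h1.trans (mk_range_le.trans ?_)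
      rw [mk_ord_toType, aleph_le_aleph]
      refine le_trans ?_ le_self_add
      exact add_le_add_right (ty_le_ty.2 hj) β
  · ext x
    simp only [mem_iUnion]
    constructor
    · intro hx; exact ⟨(g x).1, hx, le_rfl⟩
    · rintro ⟨i, hx, -⟩; exact hx

/-- unions of fewer than `ν` sets smaller than `ν` -/
theorem mk_iUnion_lt {ν : Cardinal.{0}} (hreg : ν.IsRegular) {ι : Type} (hι : #ι < ν)
    (s : ι → Set α) (hs : ∀ i, #(s i) < ν) : #(⋃ i, s i) < ν :=
  (mk_iUnion_le_sum_mk).trans_lt (sum_lt_of_isRegular hreg hι hs)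

theorem ty_add_one_lt {a : Ordinal.{0}} (hlim : IsSuccLimit a) (i : a.ToType) :
    ty i + 1 < a := by
  have := hlim.succ_lt (ty_lt i)
  rwa [Order.succ_eq_add_one] at this

theorem aleph_le_add {β a b : Ordinal.{0}} (h : a ≤ b) : ℵ_ (β + a) ≤ ℵ_ (β + b) := by
  rw [aleph_le_aleph]; exact add_le_add_right h β

theorem aleph_le_add' {β a : Ordinal.{0}} : ℵ_ β ≤ ℵ_ (β + a) := by
  rw [aleph_le_aleph]; exact le_self_add

theorem count_succ (gch : GCH) {β : Ordinal.{0}} {𝒜 : Set (Set α)} (hAD : ADn (ℵ_ β) 𝒜)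
    (c : Ordinal.{0}) (X : Set α) (hX : #X ≤ ℵ_ (β + c + 1)) :
    #{A ∈ 𝒜 | ℵ_ β ≤ #(A ∩ X : Set α)} ≤ ℵ_ (β + c + 1) :=
  count_pow hAD hX (pow_aleph_succ gch (β + c) aleph_le_add' (aleph_pos β).ne')

/-- **counting** -/
theorem count (gch : GCH) {β : Ordinal.{0}} (hreg : (ℵ_ β).IsRegular) {a : Ordinal.{0}}
    (ha0 : 0 < a) (ha : a < (ℵ_ β).ord) {𝒜 : Set (Set α)} (hAD : ADn (ℵ_ β) 𝒜) (X : Set α)
    (hX : #X ≤ ℵ_ (β + a)) : #{A ∈ 𝒜 | ℵ_ β ≤ #(A ∩ X : Set α)} ≤ ℵ_ (β + a) := by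
  rcases zero_or_succ_or_isSuccLimit a with h | ⟨c, rfl⟩ | hlim
  · exact absurd h ha0.ne'
  · rw [Order.succ_eq_add_one, ← add_assoc] at hX ⊢
    exact count_succ gch hAD c X hX
  · obtain ⟨Y, -, hYc, rfl⟩ := exists_layersG ha.le hlim X hX
    have hsub : {A ∈ 𝒜 | ℵ_ β ≤ #(A ∩ ⋃ i, Y i : Set α)} ⊆
        ⋃ i, {A ∈ 𝒜 | ℵ_ β ≤ #(A ∩ Y i : Set α)} := by
      rintro A ⟨hA, hc⟩
      by_contra hcon
      simp only [mem_iUnion, not_exists] at hcon
      refine absurd hc (not_le.2 ?_)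
      rw [inter_iUnion]
      refine mk_iUnion_lt hreg (mk_toType_lt ha) _ (fun i => ?_)
      by_contra hn
      exact hcon i ⟨hA, not_lt.1 hn⟩
    refine (mk_le_mk_of_subset hsub).trans ?_
    refine mk_iUnion_le' (aleph0_le_aleph _) ((mk_toType_le ha.le).trans aleph_le_add') _
      (fun i => ?_)
    refine (count_succ gch hAD (ty i) (Y i) (hYc i)).trans ?_
    rw [add_assoc]
    exact aleph_le_add (ty_add_one_lt hlim i).le

end SadG
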