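import Pool.Agent.Lib_helper4.SadG.Ladder

/-! Shelah's diamond theorem at `ℵ_(β+ν+1)` (GCH), for stationary sets of points of cofinality
larger than `ν`, in the form: functions `KK β → V` are guessed, `#V ≤ ℵ_(β+ν+1)`. -/

open Cardinal Order Set Ordinal

set_option linter.unusedSectionVars false

namespace SadG

open Sad

/-- the cardinal `ℵ_(β+ν)` as a type -/
abbrev IG (β : Ordinal.{0}) : Type := (ℵ_ (β + (ℵ_ β).ord)).ord.ToType

/-- the cardinal `ν = ℵ_β` as a type -/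
abbrev NG (β : Ordinal.{0}) : Type := (ℵ_ β).ord.ToType

theorem gch_pow (gch : GCH) (o : Ordinal.{0}) :
    (ℵ_ (o + 1) : Cardinal.{0}) ^ (ℵ_ o) = ℵ_ (o + 1) := by
  have h := gch (ℵ_ o) (aleph0_le_aleph o)
  rw [succ_aleph] at h
  rw [← h, ← Cardinal.power_mul, Cardinal.mul_eq_self (aleph0_le_aleph o)]

variable {V : Type}

/-- enumeration of bounded pieces -/
theorem exists_enumG (gch : GCH) (β : Ordinal.{0}) [Nonempty V]
    (hV : #V ≤ ℵ_ (β + (ℵ_ β).ord + 1)) : ∃ e : KK β → NG β → IG β → KK β → V,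
    ∀ (Z : NG β → IG β → KK β → V) (a : KK β), ∃ b, ∀ i ξ, ∀ x < a, e b i ξ x = Z i ξ x := by
  classical
  have hω : ℵ₀ ≤ ℵ_ (β + (ℵ_ β).ord) := aleph0_le_aleph _
  have hT : #(Σ a : KK β, (NG β × IG β × Iio a → V)) ≤ #(KK β) := by
    rw [Cardinal.mk_sigma, mk_K]
    refine (Cardinal.sum_le_mk_mul_iSup _).trans ?_
    rw [mk_K]
    refine (mul_le_mul' le_rfl (ciSup_le' (fun a => ?_))).trans
      (Cardinal.mul_eq_self (aleph0_le_aleph _)).le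
    rw [← Cardinal.power_def]
    have h1 : #(NG β × IG β × Iio a) ≤ ℵ_ (β + (ℵ_ β).ord) := by
      rw [Cardinal.mk_prod, Cardinal.mk_prod]
      simp only [Cardinal.lift_id, mk_ord_toType]
      calc ℵ_ β * (ℵ_ (β + (ℵ_ β).ord) * #(Iio a))
          ≤ ℵ_ (β + (ℵ_ β).ord) * (ℵ_ (β + (ℵ_ β).ord) * ℵ_ (β + (ℵ_ β).ord)) :=
            mul_le_mul' aleph_le_add' (mul_le_mul' le_rfl (Iio_K _ a))
        _ = ℵ_ (β + (ℵ_ β).ord) := by rw [Cardinal.mul_eq_self hω, Cardinal.mul_eq_self hω]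
    refine (Cardinal.power_le_power_right hV).trans ?_
    refine (Cardinal.power_le_power_left (aleph_pos _).ne' h1).trans ?_
    rw [gch_pow gch]
  obtain ⟨g⟩ : Nonempty ((Σ a : KK β, (NG β × IG β × Iio a → V)) ↪ KK β) := by
    rwa [Cardinal.le_def] at hT
  have : Nonempty (Σ a : KK β, (NG β × IG β × Iio a → V)) :=
    ⟨⟨Classical.arbitrary _, fun _ => Classical.arbitrary V⟩⟩
  refine ⟨fun b i ξ x => if h : x < (Function.invFun g b).1 then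
    (Function.invFun g b).2 (i, ξ, ⟨x, h⟩) else Classical.arbitrary V, fun Z a => ?_⟩
  let t : Σ a : KK β, (NG β × IG β × Iio a → V) := ⟨a, fun p => Z p.1 p.2.1 p.2.2⟩
  refine ⟨g t, fun i ξ x hx => ?_⟩
  have ht : Function.invFun g (g t) = t := Function.leftInverse_invFun g.injective t
  have key : ∀ t' : (Σ a : KK β, (NG β × IG β × Iio a → V)), t' = t →
      (if h : x < t'.1 then t'.2 (i, ξ, ⟨x, h⟩) else Classical.arbitrary V) = Z i ξ x := by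
    rintro _ rfl
    exact dif_pos (show x < t.1 from hx)
  exact key _ ht

/-- the guessing principle on `S` -/
def GuessG (V : Type) {β : Ordinal.{0}} (S : Set (KK β)) : Prop :=
  ∃ D : KK β → KK β → V, ∀ f : KK β → V, ∀ C : Set (KK β), IsClub C →
    ∃ δ ∈ S, δ ∈ C ∧ ∀ x < δ, D δ x = f x

theorem nu_lt_cof (β : Ordinal.{0}) : ℵ_ β < Order.cof (KK β) :=
  (aleph_le_add' (a := (ℵ_ β).ord)).trans_lt (aleph_lt_cof_K _)

theorem isClub_iInter_nu {β : Ordinal.{0}} (C : NG β → Set (KK β)) (hC : ∀ i, IsClub (C i)) :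
    IsClub (⋂ i, C i) := by
  refine IsClub.iInter (aleph0_lt_cof_K _).ne' ?_ hC
  simp only [Cardinal.lift_id, mk_ord_toType]
  exact nu_lt_cof β

theorem stepAG {β : Ordinal.{0}} {S : Set (KK β)} (hS : IsStationary S)
    (hcf : ∀ δ ∈ S, ∀ η : NG β → KK β, (∀ n, η n < δ) → ∃ x < δ, ∀ n, η n < x)
    (W : KK β → NG β → Set (KK β)) (hWm : ∀ δ, Monotone (W δ)) (hWU : ∀ δ, Iio δ = ⋃ n, W δ n)
    (e : KK β → NG β → IG β → KK β → V)
    (he : ∀ (Z : NG β → IG β → KK β → V) (a : KK β), ∃ b, ∀ i ξ, ∀ x < a, e b i ξ x = Z i ξ x) :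
    ∃ i : NG β, ∀ (Z : IG β → KK β → V) (C : Set (KK β)), IsClub C →
      ∃ δ ∈ S, δ ∈ C ∧ ∀ η < δ, ∃ a ∈ W δ i, η < a ∧
        ∃ b ∈ W δ i, ∀ ξ, ∀ x < a, e b i ξ x = Z ξ x := by
  by_contra hcon
  push Not at hcon
  choose Z C hC hbad using hcon
  choose b hb using he Z
  have h0 := aleph0_lt_cof_K (β + (ℵ_ β).ord)
  have hclub : IsClub ((⋂ i, C i) ∩ {γ | ∀ a < γ, b a < γ}) := by
    refine IsClub.inter h0.ne' (isClub_iInter_nu C hC) ?_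
    exact isClub_fun h0 (fun x => (Iio_K _ x).trans_lt (aleph_lt_cof_K _)) b
  obtain ⟨δ, hδS, hδC, hδβ⟩ := hS hclub
  have hη : ∀ i, ∃ η < δ, ∀ a ∈ W δ i, η < a → ∀ b ∈ W δ i,
      ∃ ξ, ∃ x < a, e b i ξ x ≠ Z i ξ x := by
    intro i
    exact hbad i δ hδS (mem_iInter.1 hδC i)
  choose η hηδ hη using hη
  obtain ⟨x, hxδ, hx⟩ := hcf δ hδS η hηδ
  have h1 : x ∈ ⋃ n, W δ n := (hWU δ) ▸ hxδ
  have h2 : b x ∈ ⋃ n, W δ n := (hWU δ) ▸ (hδβ x hxδ)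
  obtain ⟨n1, hn1⟩ := mem_iUnion.1 h1
  obtain ⟨n2, hn2⟩ := mem_iUnion.1 h2
  obtain ⟨ξ, y, hy, hne⟩ := hη (max n1 n2) x (hWm δ (le_max_left _ _) hn1) (hx _) (b x)
    (hWm δ (le_max_right _ _) hn2)
  exact hne (hb x _ ξ y hy)

theorem guessG_of_stationary (gch : GCH) {β : Ordinal.{0}} [Nonempty V]
    (hV : #V ≤ ℵ_ (β + (ℵ_ β).ord + 1)) {S : Set (KK β)} (hS : IsStationary S)
    (hcf : ∀ δ ∈ S, ∀ η : NG β → KK β, (∀ n, η n < δ) → ∃ x < δ, ∀ n, η n < x) :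
    GuessG V S := by
  classical
  choose W hWm hWc hWU using fun δ : KK β =>
    exists_layersG le_rfl (isSuccLimit_nu β) (Iio δ) (Iio_K _ δ)
  obtain ⟨e, he⟩ := exists_enumG (V := V) gch β hV
  obtain ⟨i, hi⟩ := stepAG hS hcf W hWm hWU e he
  unfold GuessG
  by_contra hcon
  push Not at hcon
  choose F Cl hCl hF using hcon
  have wf : WellFounded ((· < ·) : IG β → IG β → Prop) := wellFounded_lt
  let P : (ξ : IG β) → ((ζ : IG β) → ζ < ξ → (KK β → V)) → KK β → KK β → (KK β × KK β) → Prop :=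
    fun ξ prev δ x p => p.1 ∈ W δ i ∧ p.2 ∈ W δ i ∧ x < p.1 ∧
      ∀ ζ (hζ : ζ < ξ), ∀ y < p.1, e p.2 i ζ y = prev ζ hζ y
  let Dd : (ξ : IG β) → ((ζ : IG β) → ζ < ξ → (KK β → V)) → KK β → KK β → V :=
    fun ξ prev δ x => if h : ∃ p, P ξ prev δ x p then e h.choose.2 i ξ x
      else Classical.arbitrary V
  let Z : IG β → (KK β → V) := wf.fix (fun ξ prev => F (Dd ξ prev))
  have hZ : ∀ ξ, Z ξ = F (Dd ξ (fun ζ _ => Z ζ)) := fun ξ => wf.fix_eq _ ξ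
  have h0 := aleph0_lt_cof_K (β + (ℵ_ β).ord)
  have hclub : IsClub (⋂ ξ : IG β, Cl (Dd ξ (fun ζ _ => Z ζ))) := by
    refine IsClub.iInter h0.ne' ?_ (fun ξ => hCl _)
    simp only [Cardinal.lift_id, mk_ord_toType]
    exact aleph_lt_cof_K _
  obtain ⟨δ, hδS, hδC, hgood⟩ := hi Z _ hclub
  have hx : ∀ ξ : IG β, ∃ x < δ, Dd ξ (fun ζ _ => Z ζ) δ x ≠ Z ξ x := by
    intro ξ
    have := hF (Dd ξ (fun ζ _ => Z ζ)) δ hδS (mem_iInter.1 hδC ξ)
    rw [← hZ ξ] at this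
    exact this
  choose x hxδ hx using hx
  have hp : ∀ ξ : IG β, ∃ p : KK β × KK β, p.1 ∈ W δ i ∧ p.2 ∈ W δ i ∧ x ξ < p.1 ∧
      (∀ ζ < ξ, ∀ y < p.1, e p.2 i ζ y = Z ζ y) ∧ e p.2 i ξ (x ξ) ≠ Z ξ (x ξ) := by
    intro ξ
    have hex : ∃ p, P ξ (fun ζ _ => Z ζ) δ (x ξ) p := by
      obtain ⟨a, haW, hxa, b, hbW, hb⟩ := hgood (x ξ) (hxδ ξ)
      exact ⟨(a, b), haW, hbW, hxa, fun ζ _ y hy => hb ζ y hy⟩
    have h1 := hex.choose_spec
    have h2 : Dd ξ (fun ζ _ => Z ζ) δ (x ξ) = e hex.choose.2 i ξ (x ξ) := by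
      simp only [Dd]
      rw [dif_pos hex]
    refine ⟨hex.choose, h1.1, h1.2.1, h1.2.2.1, fun ζ hζ y hy => h1.2.2.2 ζ hζ y hy, ?_⟩
    rw [← h2]; exact hx ξ
  choose p hp1 hp2 hp3 hp4 hp5 using hp
  have hinj : Function.Injective (fun ξ : IG β => (⟨p ξ, ⟨hp1 ξ, hp2 ξ⟩⟩ :
      (W δ i ×ˢ W δ i : Set (KK β × KK β)))) := by
    have key : ∀ ξ ξ' : IG β, ξ < ξ' → p ξ ≠ p ξ' := by
      intro ξ ξ' hlt heq
      have := hp4 ξ' ξ hlt (x ξ) (heq ▸ hp3 ξ)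
      rw [← heq] at this
      exact hp5 ξ this
    intro ξ ξ' h
    have h' : p ξ = p ξ' := congrArg Subtype.val h
    rcases lt_trichotomy ξ ξ' with hlt | heq | hlt
    · exact absurd h' (key _ _ hlt)
    · exact heq
    · exact absurd h'.symm (key _ _ hlt)
  have hle := Cardinal.mk_le_of_injective hinj
  rw [mk_ord_toType, Cardinal.mk_setProd] at hle
  have h3 : (#(W δ i)) * #(W δ i) ≤ ℵ_ (β + ty i + 1) :=
    (mul_le_mul' (hWc δ i) (hWc δ i)).trans (Cardinal.mul_eq_self (aleph0_le_aleph _)).le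
  have h4 := hle.trans h3
  rw [aleph_le_aleph, add_assoc] at h4
  have h5 : β + (ty i + 1) < β + (ℵ_ β).ord :=
    add_lt_add_right (ty_add_one_lt (isSuccLimit_nu β) i) β
  exact absurd h5 (not_lt.2 h4)

end SadG
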