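import Pool.Agent.Lib_helper4.SadG.Diamond

/-! The equivalences, general form. -/

open Cardinal Order Set Ordinal

set_option linter.unusedSectionVars false

namespace SadG

open Sad

variable {α : Type}

theorem isClub_Ici {κ : Type} [LinearOrder κ] (a : κ) : IsClub (Ici a) :=
  ⟨fun _ hd hne _ _ hb => le_trans (hd hne.some_mem) (hb.1 hne.some_mem),
    fun x => ⟨max a x, le_max_left _ _, le_max_right _ _⟩⟩

theorem mk_stationaryG {o : Ordinal.{0}} {S : Set (K o)} (hS : IsStationary S) :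
    #S = ℵ_ (o + 1) := by
  apply le_antisymm
  · exact (mk_set_le S).trans (mk_K o).le
  · rw [← cof_K]
    refine Order.cof_le (fun a => ?_)
    obtain ⟨x, hx, hxa⟩ := hS (isClub_Ici a)
    exact ⟨x, hx, hxa⟩

theorem lt_aleph_succ {β : Ordinal.{0}} : ℵ_ β < ℵ_ (β + 1) := by
  rw [aleph_lt_aleph]; simp

theorem le_of_lt_aleph_succ {β : Ordinal.{0}} {c : Cardinal.{0}} :
    c < ℵ_ (β + 1) ↔ c ≤ ℵ_ β := by
  rw [← succ_aleph, Order.lt_succ_iff]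

theorem cf_of_ladderG {β : Ordinal.{0}} {δ : KK β} {L : Set (KK β)} (h1 : #L = ℵ_ (β + 1))
    (h2 : L ⊆ Iio δ) (h3 : ∀ x < δ, #(L ∩ Iio x : Set (KK β)) ≤ ℵ_ β) (η : NG β → KK β)
    (hη : ∀ n, η n < δ) : ∃ x < δ, ∀ n, η n < x := by
  by_contra hcon
  push Not at hcon
  have h0 : ℵ₀ ≤ ℵ_ β := aleph0_le_aleph β
  have hsub : L ⊆ ⋃ n, (insert (η n) (L ∩ Iio (η n))) := by
    intro x hx
    obtain ⟨n, hn⟩ := hcon x (h2 hx)
    refine mem_iUnion.2 ⟨n, ?_⟩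
    rcases hn.lt_or_eq with h | h
    · exact Or.inr ⟨hx, h⟩
    · exact Or.inl h
  have : #L ≤ ℵ_ β := by
    refine (mk_le_mk_of_subset hsub).trans (mk_iUnion_le' h0 (by rw [mk_ord_toType]) _
      (fun n => ?_))
    refine mk_insert_le.trans ?_
    exact (add_le_add (h3 _ (hη n)) (one_le_aleph0.trans h0)).trans (Cardinal.add_eq_self h0).le
  rw [h1] at this
  exact absurd lt_aleph_succ (not_lt.2 this)

/-! ### families without transversals, members of any size -/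

section Family

variable {β a : Ordinal.{0}}

/-- the ground type -/
abbrev GT (β a : Ordinal.{0}) : Type :=
  (KK β × (ℵ_ (β + a)).ord.ToType) ⊕ (KK β × (ℵ_ (β + a)).ord.ToType)

/-- blocks -/
def blk (ξ : KK β) : Set (GT β a) := {p | ∃ z, p = Sum.inl (ξ, z)}

/-- private parts -/
def prv (ξ : KK β) : Set (GT β a) := {p | ∃ z, p = Sum.inr (ξ, z)}

/-- guessed parts -/
def gss (L : Set (KK β)) (D : KK β → (ℵ_ (β + a)).ord.ToType) : Set (GT β a) :=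
  (fun ξ => Sum.inl (ξ, D ξ)) '' L

theorem mk_blk (ξ : KK β) : #(blk (a := a) ξ) = ℵ_ (β + a) := by
  have : blk (a := a) ξ = range (fun z => (Sum.inl (ξ, z) : GT β a)) := by
    ext p
    constructor
    · rintro ⟨z, rfl⟩; exact ⟨z, rfl⟩
    · rintro ⟨z, rfl⟩; exact ⟨z, rfl⟩
  rw [this, Cardinal.mk_range_eq, mk_ord_toType]
  intro z z' h
  simpa using h

theorem mk_prv (ξ : KK β) : #(prv (a := a) ξ) = ℵ_ (β + a) := by
  have : prv (a := a) ξ = range (fun z => (Sum.inr (ξ, z) : GT β a)) := by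
    ext p
    constructor
    · rintro ⟨z, rfl⟩; exact ⟨z, rfl⟩
    · rintro ⟨z, rfl⟩; exact ⟨z, rfl⟩
  rw [this, Cardinal.mk_range_eq, mk_ord_toType]
  intro z z' h
  simpa using h

theorem mk_gss (L : Set (KK β)) (D : KK β → (ℵ_ (β + a)).ord.ToType) : #(gss L D) = #L := by
  refine mk_image_eq ?_
  intro x y h
  simp only [Sum.inl.injEq, Prod.mk.injEq] at h
  exact h.1

theorem inter_empty_of_ne {ξ ξ' : KK β} (h : ξ ≠ ξ') : (blk (a := a) ξ ∩ blk ξ') = ∅ := by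
  rw [Set.eq_empty_iff_forall_notMem]
  rintro p ⟨⟨z, rfl⟩, ⟨z', hz'⟩⟩
  simp only [Sum.inl.injEq, Prod.mk.injEq] at hz'
  exact h hz'.1

theorem mk_blk_inter (ξ : KK β) (L : Set (KK β)) (D : KK β → (ℵ_ (β + a)).ord.ToType)
    (γ : KK β) : #(blk ξ ∩ (gss L D ∪ prv γ) : Set (GT β a)) ≤ 1 := by
  have : (blk ξ ∩ (gss L D ∪ prv γ) : Set (GT β a)) ⊆ {Sum.inl (ξ, D ξ)} := by
    rintro p ⟨⟨z, rfl⟩, (⟨x, -, hx⟩ | ⟨z', hz'⟩)⟩
    · simp only [Sum.inl.injEq, Prod.mk.injEq] at hx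
      obtain ⟨rfl, rfl⟩ := hx
      rfl
    · exact absurd hz' (by simp)
  refine (mk_le_mk_of_subset this).trans ?_
  rw [mk_singleton]

theorem mk_inter_gss {L L' : Set (KK β)} {D D' : KK β → (ℵ_ (β + a)).ord.ToType} {γ γ' : KK β}
    (h : γ ≠ γ') : #((gss L D ∪ prv γ) ∩ (gss L' D' ∪ prv γ') : Set (GT β a)) ≤
      #(L ∩ L' : Set (KK β)) := by
  have : ((gss L D ∪ prv γ) ∩ (gss L' D' ∪ prv γ') : Set (GT β a)) ⊆
      (fun ξ => Sum.inl (ξ, D ξ)) '' (L ∩ L') := by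
    rintro p ⟨(⟨x, hx, rfl⟩ | ⟨z, rfl⟩), (⟨x', hx', h'⟩ | ⟨z', hz'⟩)⟩
    · simp only [Sum.inl.injEq, Prod.mk.injEq] at h'
      obtain ⟨rfl, -⟩ := h'
      exact ⟨x', ⟨hx, hx'⟩, rfl⟩
    · exact absurd hz' (by simp)
    · exact absurd h' (by simp)
    · simp only [Sum.inr.injEq, Prod.mk.injEq] at hz'
      exact absurd hz'.1 h
  exact (mk_le_mk_of_subset this).trans mk_image_le

theorem family_of_ladder (gch : GCH) (ha0 : 0 < a) (ha : a ≤ (ℵ_ β).ord + 1) (h : LSn β) :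
    ∃ 𝒜 : Set (Set (GT β a)), #𝒜 = ℵ_ (β + (ℵ_ β).ord + 1) ∧ (∀ A ∈ 𝒜, #A = ℵ_ (β + a)) ∧
      (∀ A ∈ 𝒜, ∀ B ∈ 𝒜, A ≠ B → #(A ∩ B : Set (GT β a)) < ℵ_ β) ∧
      ¬ ∃ T : Set (GT β a), ∀ A ∈ 𝒜, 0 < #(T ∩ A : Set (GT β a)) ∧
        #(T ∩ A : Set (GT β a)) < ℵ_ (β + 1) := by
  classical
  obtain ⟨S, L, hS, hL, hLL⟩ := h
  have h0 : ℵ₀ ≤ ℵ_ β := aleph0_le_aleph β
  have h1κ : ℵ_ (β + 1) ≤ ℵ_ (β + a) := aleph_le_add (Order.one_le_iff_pos.2 ha0)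
  have hne : Nonempty (ℵ_ (β + a)).ord.ToType := by
    rw [← mk_ne_zero_iff, mk_ord_toType]; exact (aleph_pos _).ne'
  obtain ⟨D, hD⟩ := guessG_of_stationary (V := (ℵ_ (β + a)).ord.ToType) gch
    (by rw [mk_ord_toType, add_assoc]; exact aleph_le_add ha) hS
    (fun δ hδ => cf_of_ladderG (hL δ hδ).1 (hL δ hδ).2.1 (hL δ hδ).2.2)
  let A : KK β → Set (GT β a) := fun γ => gss (L γ) (D γ) ∪ prv γ
  have hA1 : ∀ γ ∈ S, #(A γ) = ℵ_ (β + a) := by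
    intro γ hγ
    apply le_antisymm
    · refine mk_union_le' (aleph0_le_aleph _) ?_ ?_
      · rw [mk_gss, (hL γ hγ).1]; exact h1κ
      · rw [mk_prv]
    · rw [← mk_prv (a := a) γ]
      exact mk_le_mk_of_subset subset_union_right
  refine ⟨range blk ∪ A '' S, ?_, ?_, ?_, ?_⟩
  · apply le_antisymm
    · refine mk_union_le' (aleph0_le_aleph _) (mk_range_le.trans (mk_K _).le)
        (mk_image_le.trans (mk_stationaryG hS).le)
    · have hinj : Function.Injective (blk (β := β) (a := a)) := by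
        intro ξ ξ' hξ
        by_contra hne'
        have h1 := inter_empty_of_ne (a := a) hne'
        rw [← hξ, inter_self] at h1
        have h2 := mk_blk (a := a) ξ
        rw [h1, mk_eq_zero] at h2
        exact absurd h2 (aleph_pos _).ne
      have h1 : #(KK β) ≤ #(range (blk (β := β) (a := a))) := by
        rw [Cardinal.mk_range_eq _ hinj]
      rw [mk_K] at h1
      exact h1.trans (mk_le_mk_of_subset subset_union_left)
  · rintro B (⟨ξ, rfl⟩ | ⟨γ, hγ, rfl⟩)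
    · exact mk_blk ξ
    · exact hA1 γ hγ
  · rintro B (⟨ξ, rfl⟩ | ⟨γ, hγ, rfl⟩) B' (⟨ξ', rfl⟩ | ⟨γ', hγ', rfl⟩) hne'
    · rw [inter_empty_of_ne (fun h => hne' (by rw [h])), mk_eq_zero]
      exact aleph_pos β
    · exact (mk_blk_inter ξ _ _ γ').trans_lt (one_lt_aleph0.trans_le h0)
    · rw [inter_comm]
      exact (mk_blk_inter ξ' _ _ γ).trans_lt (one_lt_aleph0.trans_le h0)
    · have hγγ : γ ≠ γ' := fun h => hne' (by rw [h])
      exact (mk_inter_gss hγγ).trans_lt (hLL γ hγ γ' hγ' hγγ)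
  · rintro ⟨T, hT⟩
    have ht : ∀ ξ : KK β, ∃ z, (Sum.inl (ξ, z) : GT β a) ∈ T := by
      intro ξ
      have := (hT (blk ξ) (Or.inl ⟨ξ, rfl⟩)).1
      rw [pos_iff_ne_zero, mk_ne_zero_iff] at this
      obtain ⟨⟨p, hpT, z, rfl⟩⟩ := this
      exact ⟨z, hpT⟩
    choose t ht using ht
    obtain ⟨δ, hδ, -, hδt⟩ := hD t Set.univ .univ
    have h1 := (hT (A δ) (Or.inr ⟨δ, hδ, rfl⟩)).2
    have hsub : gss (L δ) (D δ) ⊆ T ∩ A δ := by
      rintro _ ⟨x, hx, rfl⟩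
      refine ⟨?_, Or.inl ⟨x, hx, rfl⟩⟩
      simp only
      rw [hδt x ((hL δ hδ).2.1 hx)]
      exact ht x
    have h2 := (mk_le_mk_of_subset hsub).trans_lt h1
    rw [mk_gss, (hL δ hδ).1] at h2
    exact lt_irrefl _ h2

end Family

/-! ### chromatic number -/

theorem exists_class {β : Ordinal.{0}} {G : Type} {L : Set G} (hL : #L = ℵ_ (β + 1))
    (D : G → NG β) : ∃ c, #{x ∈ L | D x = c} = ℵ_ (β + 1) := by
  by_contra hcon
  push Not at hcon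
  have h0 : ℵ₀ ≤ ℵ_ β := aleph0_le_aleph β
  have : #L ≤ ℵ_ β := by
    have hsub : L ⊆ ⋃ c, {x ∈ L | D x = c} := fun x hx => mem_iUnion.2 ⟨D x, hx, rfl⟩
    refine (mk_le_mk_of_subset hsub).trans (mk_iUnion_le' h0 (by rw [mk_ord_toType]) _
      (fun c => ?_))
    rw [← le_of_lt_aleph_succ]
    refine lt_of_le_of_ne ?_ (hcon c)
    rw [← hL]
    exact mk_le_mk_of_subset (fun x hx => hx.1)
  rw [hL] at this
  exact absurd lt_aleph_succ (not_lt.2 this)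

theorem injOn_of_interG {β : Ordinal.{0}} {G γ : Type} {S : Set γ} {A : γ → Set G}
    (h1 : ∀ x ∈ S, #(A x) = ℵ_ (β + 1))
    (h2 : ∀ x ∈ S, ∀ y ∈ S, x ≠ y → #(A x ∩ A y : Set G) < ℵ_ β) : InjOn A S := by
  intro x hx y hy hxy
  by_contra hne
  have := h2 x hx y hy hne
  rw [← hxy, inter_self, h1 x hx] at this
  exact lt_asymm this lt_aleph_succ

theorem chromatic_of_ladderG (gch : GCH) {β : Ordinal.{0}} (h : LSn β) :
    ∃ 𝒜 : Set (Set (KK β)), #𝒜 = ℵ_ (β + (ℵ_ β).ord + 1) ∧ (∀ A ∈ 𝒜, #A = ℵ_ (β + 1)) ∧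
      (∀ A ∈ 𝒜, ∀ B ∈ 𝒜, A ≠ B → #(A ∩ B : Set (KK β)) < ℵ_ β) ∧
      ∀ f : KK β → NG β, ∃ A ∈ 𝒜, ∃ c, ∀ x ∈ A, f x = c := by
  obtain ⟨S, L, hS, hL, hLL⟩ := h
  have hne : Nonempty (NG β) := by
    rw [← mk_ne_zero_iff, mk_ord_toType]; exact (aleph_pos _).ne'
  obtain ⟨D, hD⟩ := guessG_of_stationary (V := NG β) gch
    (by rw [mk_ord_toType, add_assoc]; exact aleph_le_add') hS
    (fun δ hδ => cf_of_ladderG (hL δ hδ).1 (hL δ hδ).2.1 (hL δ hδ).2.2)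
  have hc : ∀ γ ∈ S, ∃ c : NG β, #{x ∈ L γ | D γ x = c} = ℵ_ (β + 1) :=
    fun γ hγ => exists_class (hL γ hγ).1 (D γ)
  choose! c hc using hc
  let A : KK β → Set (KK β) := fun γ => {x ∈ L γ | D γ x = c γ}
  have hA2 : ∀ x ∈ S, ∀ y ∈ S, x ≠ y → #(A x ∩ A y : Set (KK β)) < ℵ_ β := by
    intro x hx y hy hne
    refine (mk_le_mk_of_subset ?_).trans_lt (hLL x hx y hy hne)
    exact inter_subset_inter (fun _ h => h.1) (fun _ h => h.1)
  refine ⟨A '' S, ?_, ?_, ?_, ?_⟩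
  · rw [mk_image_eq_of_injOn _ _ (injOn_of_interG hc hA2), mk_stationaryG hS]
  · rintro _ ⟨γ, hγ, rfl⟩; exact hc γ hγ
  · rintro _ ⟨x, hx, rfl⟩ _ ⟨y, hy, rfl⟩ hne
    exact hA2 x hx y hy (fun h => hne (by rw [h]))
  · intro f
    obtain ⟨δ, hδ, -, hfD⟩ := hD f Set.univ .univ
    refine ⟨A δ, ⟨δ, hδ, rfl⟩, c δ, fun x hx => ?_⟩
    rw [← hfD x ((hL δ hδ).2.1 hx.1)]
    exact hx.2

theorem not_EDn_of_chromatic {β : Ordinal.{0}} {𝒜 : Set (Set α)}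
    (h1 : ∀ A ∈ 𝒜, #A = ℵ_ (β + 1)) (h : ∀ f : α → NG β, ∃ A ∈ 𝒜, ∃ c, ∀ x ∈ A, f x = c) :
    ¬ EDn (ℵ_ β) 𝒜 := by
  classical
  intro hED
  obtain ⟨T, hT⟩ := Tr.of_EDn (aleph0_le_aleph β)
    (fun A hA => by rw [h1 A hA]; exact lt_aleph_succ) hED
  obtain ⟨c0, c1, hcc⟩ : ∃ c0 c1 : NG β, c0 ≠ c1 := by
    have : Nontrivial (NG β) := by
      rw [← Cardinal.one_lt_iff_nontrivial, mk_ord_toType]
      exact one_lt_aleph0.trans_le (aleph0_le_aleph β)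
    exact exists_pair_ne _
  obtain ⟨A, hA, c, hc⟩ := h (fun x => if x ∈ T then c1 else c0)
  obtain ⟨h2, h3⟩ := hT A hA
  rw [pos_iff_ne_zero, mk_ne_zero_iff] at h2
  obtain ⟨⟨x, hxT, hxA⟩⟩ := h2
  have hc1 : c = c1 := by
    rw [← hc x hxA, if_pos hxT]
  have : T ∩ A = A := by
    refine inter_eq_right.2 (fun y hy => ?_)
    by_contra hyT
    have := hc y hy
    rw [if_neg hyT, hc1] at this
    exact hcc this
  rw [this, h1 A hA] at h3
  exact absurd lt_aleph_succ (not_lt.2 h3)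

/-! ### the canonical set -/

/-- a decomposition of every initial segment into `ν` smaller sets -/
def IsMatrixG {β : Ordinal.{0}} (W : KK β → NG β → Set (KK β)) : Prop :=
  ∀ b, (⋃ i, W b i) = Iio b ∧ ∀ i, #(W b i) < ℵ_ (β + (ℵ_ β).ord)

/-- the canonical set of a decomposition -/
def SptsG {β : Ordinal.{0}} (W : KK β → NG β → Set (KK β)) : Set (KK β) :=
  {δ | ∃ L ⊆ Iio δ, #L = ℵ_ (β + 1) ∧ ∀ b < δ, ∀ i, #(L ∩ W b i : Set (KK β)) < ℵ_ β}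

theorem exists_matrixG (β : Ordinal.{0}) : ∃ W : KK β → NG β → Set (KK β), IsMatrixG W := by
  choose W hWm hWc hWU using fun δ : KK β =>
    exists_layersG le_rfl (isSuccLimit_nu β) (Iio δ) (Iio_K _ δ)
  refine ⟨W, fun b => ⟨(hWU b).symm, fun i => (hWc b i).trans_lt ?_⟩⟩
  rw [aleph_lt_aleph, add_assoc]
  exact add_lt_add_right (ty_add_one_lt (isSuccLimit_nu β) i) β

theorem ladder_of_SptsG {β : Ordinal.{0}} {W : KK β → NG β → Set (KK β)} (hW : IsMatrixG W)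
    (hS : IsStationary (SptsG W)) : LSn β := by
  have h0 : ℵ₀ ≤ ℵ_ β := aleph0_le_aleph β
  choose! L hL1 hL2 hL3 using fun δ (hδ : δ ∈ SptsG W) => hδ
  have hne : Nonempty (NG β) := by
    rw [← mk_ne_zero_iff, mk_ord_toType]; exact (aleph_pos _).ne'
  have hn : ∀ δ ∈ SptsG W, ∃ i, #(L δ ∩ W δ i : Set (KK β)) = ℵ_ (β + 1) := by
    intro δ hδ
    by_contra hcon
    push Not at hcon
    have : #(L δ) ≤ ℵ_ β := by
      have hsub : L δ ⊆ ⋃ i, L δ ∩ W δ i := by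
        intro x hx
        have : x ∈ ⋃ i, W δ i := by rw [(hW δ).1]; exact hL1 δ hδ hx
        obtain ⟨i, hi⟩ := mem_iUnion.1 this
        exact mem_iUnion.2 ⟨i, hx, hi⟩
      refine (mk_le_mk_of_subset hsub).trans (mk_iUnion_le' h0 (by rw [mk_ord_toType]) _
        (fun i => ?_))
      rw [← le_of_lt_aleph_succ]
      refine lt_of_le_of_ne ?_ (hcon i)
      rw [← hL2 δ hδ]
      exact mk_le_mk_of_subset inter_subset_left
    rw [hL2 δ hδ] at this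
    exact absurd lt_aleph_succ (not_lt.2 this)
  choose! n hn using hn
  refine ⟨SptsG W, fun δ => L δ ∩ W δ (n δ), hS, fun δ hδ => ⟨hn δ hδ, ?_, ?_⟩, ?_⟩
  · exact inter_subset_left.trans (hL1 δ hδ)
  · intro b hb
    have : L δ ∩ W δ (n δ) ∩ Iio b ⊆ ⋃ m, (L δ ∩ W b m) := by
      rintro x ⟨⟨hx, -⟩, hxb⟩
      rw [← (hW b).1] at hxb
      obtain ⟨m, hm⟩ := mem_iUnion.1 hxb
      exact mem_iUnion.2 ⟨m, hx, hm⟩
    refine (mk_le_mk_of_subset this).trans (mk_iUnion_le' h0 (by rw [mk_ord_toType]) _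
      (fun m => (hL3 δ hδ b hb m).le))
  · have key : ∀ δ ∈ SptsG W, ∀ δ' ∈ SptsG W, δ < δ' →
        #(L δ ∩ W δ (n δ) ∩ (L δ' ∩ W δ' (n δ')) : Set (KK β)) < ℵ_ β := by
      intro δ hδ δ' hδ' hlt
      refine (mk_le_mk_of_subset ?_).trans_lt (hL3 δ' hδ' δ hlt (n δ))
      rintro x ⟨⟨-, hx⟩, ⟨hx', -⟩⟩
      exact ⟨hx', hx⟩
    intro δ hδ δ' hδ' hne
    rcases lt_or_gt_of_ne hne with h | h
    · exact key δ hδ δ' hδ' h
    · rw [inter_comm]; exact key δ' hδ' δ hδ h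

theorem exists_of_lt_lambda {β : Ordinal.{0}} {c : Cardinal.{0}}
    (h : c < ℵ_ (β + (ℵ_ β).ord)) : ∃ b < (ℵ_ β).ord, c ≤ ℵ_ (β + b) := by
  by_contra hcon
  push Not at hcon
  have hnorm : IsNormal (fun o : Ordinal.{0} => ℵ_ (β + o)) :=
    isNormal_aleph.comp (isNormal_add_right β)
  refine absurd h (not_lt.2 ?_)
  exact (hnorm.le_iff_forall_le (isSuccLimit_nu β)).2 (fun b hb => (hcon b hb).le)

theorem SptsG_of_ladder (gch : GCH) {β : Ordinal.{0}} (h : LSn β)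
    {W : KK β → NG β → Set (KK β)} (hW : IsMatrixG W) : IsStationary (SptsG W) := by
  obtain ⟨S, L, hS, hL, hLL⟩ := h
  by_contra hns
  obtain ⟨C, hC, hdis⟩ := not_isStationary_iff.1 hns
  have h0 := aleph0_lt_cof_K (β + (ℵ_ β).ord)
  have hinj : InjOn L S := injOn_of_interG (fun x hx => (hL x hx).1) hLL
  have hAD : ADn (ℵ_ β) (L '' S) := by
    rintro _ ⟨x, hx, rfl⟩ _ ⟨y, hy, rfl⟩ hne
    exact hLL x hx y hy (fun h => hne (by rw [h]))
  have hb : ∀ b : KK β, ∃ b' : KK β, ∀ δ ∈ S,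
      (∃ i, ℵ_ β ≤ #(L δ ∩ W b i : Set (KK β))) → δ < b' := by
    intro b
    have hcard : #{δ ∈ S | ∃ i, ℵ_ β ≤ #(L δ ∩ W b i : Set (KK β))} ≤
        ℵ_ (β + (ℵ_ β).ord) := by
      have hsub : {δ ∈ S | ∃ i, ℵ_ β ≤ #(L δ ∩ W b i : Set (KK β))} ⊆
          ⋃ i, {δ ∈ S | ℵ_ β ≤ #(L δ ∩ W b i : Set (KK β))} := by
        rintro δ ⟨hδ, n, hn⟩
        exact mem_iUnion.2 ⟨n, hδ, hn⟩
      refine (mk_le_mk_of_subset hsub).trans ?_
      refine mk_iUnion_le' (aleph0_le_aleph _) ((mk_toType_le le_rfl).trans aleph_le_add') _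
        (fun i => ?_)
      obtain ⟨c, hc, hWc⟩ := exists_of_lt_lambda ((hW b).2 i)
      have hWc' : #(W b i) ≤ ℵ_ (β + c + 1) := by
        refine hWc.trans ?_
        rw [aleph_le_aleph]; simp
      have h1 := count_succ gch hAD c (W b i) hWc'
      rw [← mk_image_eq_of_injOn L _ (hinj.mono (fun x hx => hx.1))]
      refine ((mk_le_mk_of_subset ?_).trans h1).trans ?_
      · rintro _ ⟨δ, ⟨hδ, hn⟩, rfl⟩
        exact ⟨⟨δ, hδ, rfl⟩, hn⟩
      · rw [add_assoc]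
        have hc1 : c + 1 < (ℵ_ β).ord := by
          have := (isSuccLimit_nu β).succ_lt hc
          rwa [Order.succ_eq_add_one] at this
        exact aleph_le_add hc1.le
    obtain ⟨b', hb'⟩ := exists_bound (hcard.trans_lt (aleph_lt_cof_K _))
    exact ⟨b', fun δ hδ hn => hb' δ ⟨hδ, hn⟩⟩
  choose b hb using hb
  have hclub : IsClub (C ∩ {γ | ∀ x < γ, b x < γ}) :=
    hC.inter h0.ne' (isClub_fun h0 (fun x => (Iio_K _ x).trans_lt (aleph_lt_cof_K _)) b)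
  obtain ⟨δ, hδS, hδC, hδb⟩ := hS hclub
  have hδ : δ ∉ SptsG W := fun h => Set.disjoint_left.1 hdis h hδC
  apply hδ
  refine ⟨L δ, (hL δ hδS).2.1, (hL δ hδS).1, fun x hx i => ?_⟩
  by_contra hn
  exact lt_asymm (hb x δ hδS ⟨i, not_lt.1 hn⟩) (hδb x hx)

end SadG
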