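import Pool.Agent.Lib_helper4.SadG.Top
import Pool.Agent.Lib_helper4.SadG.Approach

/-! All member sizes. -/

open Cardinal Order Set Ordinal

set_option linter.unusedSectionVars false

namespace SadG

open Sad

variable {α : Type}

/-- a family without transversal gives ladders, members of any size `κ`, `ν < κ ≤ λ⁺` -/
theorem ladder_of_no_transversal (gch : GCH) {β : Ordinal.{0}} (hreg : (ℵ_ β).IsRegular)
    {a : Ordinal.{0}} (ha0 : 0 < a) (ha : a ≤ (ℵ_ β).ord + 1) {𝒜 : Set (Set α)}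
    (hAD : ADn (ℵ_ β) 𝒜) (hA1 : ∀ A ∈ 𝒜, #A = ℵ_ (β + a))
    (hc : #𝒜 ≤ ℵ_ (β + (ℵ_ β).ord + 1)) (hT : ¬ Tr (ℵ_ β) 𝒜) : LSn β := by
  have h0 : ℵ₀ ≤ ℵ_ β := aleph0_le_aleph β
  have hκ : ℵ_ β < ℵ_ (β + a) := by
    rw [aleph_lt_aleph]
    exact lt_add_of_pos_right β ha0
  rcases lt_trichotomy a (ℵ_ β).ord with hlt | rfl | hgt
  · exact ladder_of_not gch hκ (aleph_le_add hlt.le) (glue_Tr h0)
      (induct gch hreg ha0 (glue_Tr h0) (induct_Tr gch hreg ha0 hlt) _ hlt.le le_rfl)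
      hAD hA1 hc hT
  · refine ladder_of_not gch hκ le_rfl (glue_Tr h0) ?_ hAD hA1 hc hT
    intro ℬ hBD hB1 hBc
    exact Tr.base h0 hκ hBD hB1 hBc (fun X hX => count_lt gch hBD X hX)
  · have heq : a = (ℵ_ β).ord + 1 := le_antisymm ha (Order.add_one_le_of_lt hgt)
    subst heq
    by_contra hLS
    exact hT (Tr_top gch hAD (fun A hA => by rw [hA1 A hA, add_assoc]) hc hLS)

theorem exists_index {β : Ordinal.{0}} {κ : Cardinal.{0}} (h1 : ℵ_ β < κ)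
    (h2 : κ ≤ ℵ_ (β + (ℵ_ β).ord + 1)) :
    ∃ a : Ordinal.{0}, κ = ℵ_ (β + a) ∧ 0 < a ∧ a ≤ (ℵ_ β).ord + 1 := by
  have hinf : ℵ₀ ≤ κ := (aleph0_le_aleph β).trans h1.le
  obtain ⟨o, rfl⟩ := Cardinal.mem_range_aleph_iff.2 hinf
  rw [aleph_lt_aleph] at h1
  rw [aleph_le_aleph] at h2
  refine ⟨o - β, ?_, ?_, ?_⟩
  · rw [Ordinal.add_sub_cancel_of_le h1.le]
  · rw [pos_iff_ne_zero]
    intro h
    have := Ordinal.add_sub_cancel_of_le h1.le
    rw [h, add_zero] at this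
    exact h1.ne this
  · rw [Ordinal.sub_le, ← add_assoc]
    exact h2

end SadG
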