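import Pool.Agent.Lib_helper4.SadG.Count

/-! Families of at most `ℵ_(β+b)` sets, `b ≤ ν`, `ν = ℵ_β`. -/

open Cardinal Order Set Ordinal

set_option linter.unusedSectionVars false

namespace SadG

open Sad

variable {α : Type}

theorem card_sUnion_le' {𝒜 : Set (Set α)} {ν : Cardinal.{0}} (h0 : ℵ₀ ≤ ν) (h1 : #𝒜 ≤ ν)
    (h2 : ∀ A ∈ 𝒜, #A ≤ ν) : #(⋃₀ 𝒜) ≤ ν := Sad.card_sUnion_le h0 h1 h2

/-- the closure step -/
def clG (ν : Cardinal.{0}) (𝒜 : Set (Set α)) (Y : Set α) : ℕ → Set α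
  | 0 => Y
  | n + 1 => clG ν 𝒜 Y n ∪ ⋃₀ {A ∈ 𝒜 | ν ≤ #(A ∩ clG ν 𝒜 Y n : Set α)}

/-- good sets -/
theorem exists_goodG (gch : GCH) {β : Ordinal.{0}} {𝒜 : Set (Set α)} (hAD : ADn (ℵ_ β) 𝒜)
    (c : Ordinal.{0}) (h1 : ∀ A ∈ 𝒜, #A ≤ ℵ_ (β + c + 1)) (Y : Set α)
    (hY : #Y ≤ ℵ_ (β + c + 1)) :
    ∃ X : Set α, Y ⊆ X ∧ #X ≤ ℵ_ (β + c + 1) ∧ ∀ A ∈ 𝒜, #(A ∩ X : Set α) ≤ ℵ_ β ∨ A ⊆ X := by
  have hinf : ℵ₀ ≤ ℵ_ (β + c + 1) := aleph0_le_aleph _
  have hcard : ∀ n, #(clG (ℵ_ β) 𝒜 Y n) ≤ ℵ_ (β + c + 1) := by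
    intro n
    induction n with
    | zero => exact hY
    | succ n ih =>
      refine mk_union_le' hinf ih ?_
      exact card_sUnion_le' hinf (count_succ gch hAD c _ ih) (fun A hA => h1 A hA.1)
  refine ⟨⋃ n, clG (ℵ_ β) 𝒜 Y n, subset_iUnion (clG (ℵ_ β) 𝒜 Y) 0, ?_, fun A hA => ?_⟩
  · exact mk_iUnion_le' hinf (by rw [Cardinal.mk_nat]; exact hinf) _ hcard
  · by_contra hcon
    push Not at hcon
    obtain ⟨hc, hs⟩ := hcon
    refine absurd ?_ (not_le.2 hc)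
    rw [inter_iUnion]
    refine mk_iUnion_le' (aleph0_le_aleph β) (by rw [Cardinal.mk_nat]; exact aleph0_le_aleph β) _
      (fun n => ?_)
    by_contra hn
    apply hs
    have hm : A ∈ {A ∈ 𝒜 | ℵ_ β ≤ #(A ∩ clG (ℵ_ β) 𝒜 Y n : Set α)} := ⟨hA, (not_le.1 hn).le⟩
    exact (subset_sUnion_of_mem hm).trans
      ((subset_union_right).trans (subset_iUnion (clG (ℵ_ β) 𝒜 Y) (n + 1)))

/-- the statement of the induction -/
def Stmt (β : Ordinal.{0}) (κ : Cardinal.{0}) (P : Set (Set α) → Prop) (b : Ordinal.{0}) : Prop :=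
  ∀ 𝒜 : Set (Set α), ADn (ℵ_ β) 𝒜 → (∀ A ∈ 𝒜, #A = κ) → #𝒜 ≤ ℵ_ (β + b) → P 𝒜

theorem step_succG (gch : GCH) {β : Ordinal.{0}} (hreg : (ℵ_ β).IsRegular) {κ : Cardinal.{0}}
    (hκ : ℵ_ β < κ) {P : Set (Set α) → Prop} (hglue : Glue (ℵ_ β) P) {b : Ordinal.{0}}
    (hb0 : 0 < b) (hb : b < (ℵ_ β).ord) (hκb : κ ≤ ℵ_ (β + b)) (ih : Stmt β κ P b) :
    Stmt β κ P (b + 1) := by
  intro 𝒜 hAD hA1 hc
  rw [← add_assoc] at hc
  have h0κ : ℵ₀ ≤ κ := (aleph0_le_aleph β).trans hκ.le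
  have hlt : ℵ_ (β + b) < ℵ_ (β + b + 1) := by rw [aleph_lt_aleph]; simp
  have hU : #(⋃₀ 𝒜) ≤ #(K (β + b)) := by
    rw [mk_K]
    refine card_sUnion_le' (aleph0_le_aleph _) hc (fun A hA => ?_)
    rw [hA1 A hA]
    exact hκb.trans hlt.le
  obtain ⟨r, hr⟩ := exists_injOn hU
  have hAU : ∀ A ∈ 𝒜, A ⊆ ⋃₀ 𝒜 := fun A hA => subset_sUnion_of_mem hA
  have hcount : ∀ γ : K (β + b), #{A ∈ 𝒜 | ℵ_ β ≤ #(A ∩ r ⁻¹' Iio γ : Set α)} ≤ ℵ_ (β + b) := by
    intro γ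
    have := count gch hreg hb0 hb hAD (⋃₀ 𝒜 ∩ r ⁻¹' Iio γ)
      ((mk_inter_preimage_le hr _).trans (Iio_K (β + b) γ))
    refine (mk_le_mk_of_subset ?_).trans this
    rintro A ⟨hA, hinf⟩
    refine ⟨hA, ?_⟩
    rwa [← inter_assoc, inter_eq_self_of_subset_left (hAU A hA)]
  refine of_trap (κ := K (β + b)) (aleph0_lt_cof_K (β + b)) hglue hAD
    (fun A hA => by rw [hA1 A hA]; exact hκ) r (fun s => ℵ_ β ≤ #s)
    (fun s t h hs => hs.trans (mk_le_mk_of_subset h))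
    (fun β' => ?_) (fun A hA => ?_) (fun γ Z 𝒟 hD hDZ => ?_) ?_
  · have h2 : #(⋃₀ {A ∈ 𝒜 | ℵ_ β ≤ #(A ∩ r ⁻¹' Iio β' : Set α)}) ≤ ℵ_ (β + b) :=
      card_sUnion_le' (aleph0_le_aleph _) (hcount β') (fun A hA => by rw [hA1 A hA.1]; exact hκb)
    obtain ⟨b', hb'⟩ := exists_bound (κ := K (β + b))
      (s := r '' (⋃₀ {A ∈ 𝒜 | ℵ_ β ≤ #(A ∩ r ⁻¹' Iio β' : Set α)}))
      ((mk_image_le.trans h2).trans_lt (aleph_lt_cof_K (β + b)))
    refine ⟨b', fun A hA hinf x hx => hb' _ ⟨x, ?_, rfl⟩⟩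
    exact ⟨A, ⟨hA, hinf⟩, hx⟩
  · obtain ⟨b', hb'⟩ := exists_bound (κ := K (β + b)) (s := r '' A)
      (mk_image_le.trans_lt (by rw [hA1 A hA]; exact hκb.trans_lt (aleph_lt_cof_K (β + b))))
    exact ⟨b', fun x hx => hb' _ ⟨x, hx, rfl⟩⟩
  · refine ih _ ((hAD.mono hD).cut Z)
      (cut_card h0κ hκ (fun A hA => hA1 A (hD hA)) (fun A hA => (hDZ A hA).2)) ?_
    refine mk_image_le.trans ((mk_le_mk_of_subset ?_).trans (hcount γ))
    intro A hA
    refine ⟨hD hA, ?_⟩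
    rw [inter_eq_self_of_subset_left (hDZ A hA).1, hA1 A (hD hA)]
    exact hκ.le
  · have : TrapG (ℵ_ β) 𝒜 r (fun s => ℵ_ β ≤ #s) = ∅ := by
      rw [Set.eq_empty_iff_forall_notMem]
      rintro γ ⟨A, hA, hfin, hnc⟩
      refine absurd hnc (not_lt.2 ?_)
      refine mk_le_of_rank r (hr.mono (inter_subset_left.trans (hAU A hA))) ?_
      rintro x ⟨hxA, hxγ⟩
      refine lt_of_le_of_lt (mk_le_mk_of_subset ?_) (not_le.1 (hfin (r x) hxγ))
      exact inter_subset_inter_left _ inter_subset_left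
    rw [this]
    exact not_isStationary_empty

theorem step_limitG (gch : GCH) {β : Ordinal.{0}} {κ : Cardinal.{0}} (hκ : ℵ_ β < κ)
    {P : Set (Set α) → Prop} (hglue : Glue (ℵ_ β) P) {a b : Ordinal.{0}}
    (hab : a < b) (hb : b ≤ (ℵ_ β).ord) (hlim : IsSuccLimit b) (hκa : κ ≤ ℵ_ (β + a))
    (ih : ∀ c, a ≤ c → c < b → Stmt β κ P c) : Stmt β κ P b := by
  intro 𝒜 hAD hA1 hc
  classical
  have h0 : ℵ₀ ≤ ℵ_ β := aleph0_le_aleph β
  have h0κ : ℵ₀ ≤ κ := h0.trans hκ.le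
  have hU : #(⋃₀ 𝒜) ≤ ℵ_ (β + b) := by
    refine card_sUnion_le' (aleph0_le_aleph _) hc (fun A hA => ?_)
    rw [hA1 A hA]
    exact hκa.trans (aleph_le_add hab.le)
  obtain ⟨Y, hYm, hYc, hYU⟩ := exists_layersG hb hlim _ hU
  let ι := {i : b.ToType // a ≤ ty i}
  have hι : #ι ≤ ℵ_ β := (mk_subtype_le _).trans (mk_toType_le hb)
  have hexX : ∀ i : ι, ∃ X : Set α, Y i ⊆ X ∧ #X ≤ ℵ_ (β + ty i.1 + 1) ∧
      ∀ A ∈ 𝒜, #(A ∩ X : Set α) ≤ ℵ_ β ∨ A ⊆ X := by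
    intro i
    refine exists_goodG gch hAD (ty i.1) (fun A hA => ?_) (Y i) (hYc i)
    rw [hA1 A hA]
    refine (hκa.trans (aleph_le_add i.2)).trans ?_
    rw [aleph_le_aleph]; simp
  choose X hX2 hX1 hX3 using hexX
  have hex : ∀ A ∈ 𝒜, ∃ i, A ⊆ X i := by
    intro A hA
    by_contra hcon
    push Not at hcon
    have hsub : A ⊆ ⋃ i, A ∩ X i := by
      intro x hx
      have hx' : x ∈ ⋃ i, Y i := by rw [← hYU]; exact ⟨A, hA, hx⟩
      obtain ⟨i, hi⟩ := mem_iUnion.1 hx'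
      obtain ⟨j, hj⟩ := exists_ty hab
      let k := max i j
      have hk : a ≤ ty k := by
        rw [← hj]; exact ty_le_ty.2 (le_max_right _ _)
      refine mem_iUnion.2 ⟨⟨k, hk⟩, hx, hX2 ⟨k, hk⟩ ?_⟩
      exact hYm (le_max_left i j) hi
    have : #A ≤ ℵ_ β := by
      refine (mk_le_mk_of_subset hsub).trans (mk_iUnion_le' h0 hι _ (fun i => ?_))
      exact (hX3 i A hA).resolve_right (hcon i)
    rw [hA1 A hA] at this
    exact absurd hκ (not_lt.2 this)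
  have hιne : Nonempty ι := by
    obtain ⟨j, hj⟩ := exists_ty hab
    exact ⟨⟨j, hj.ge⟩⟩
  have wf : WellFounded ((· < ·) : ι → ι → Prop) := wellFounded_lt
  let ρ : Set α → ι := fun A => if h : ∃ i, A ⊆ X i then wf.min {i | A ⊆ X i} h
    else Classical.arbitrary ι
  have hρ1 : ∀ A ∈ 𝒜, A ⊆ X (ρ A) := by
    intro A hA
    have h := hex A hA
    simp only [ρ, dif_pos h]
    exact wf.min_mem {i | A ⊆ X i} h
  have hρ2 : ∀ A ∈ 𝒜, ∀ i < ρ A, ¬ A ⊆ X i := by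
    intro A hA i hi
    have h := hex A hA
    simp only [ρ, dif_pos h] at hi
    intro hsub
    exact wf.not_lt_min {i | A ⊆ X i} hsub hi
  have hkey : ∀ A ∈ 𝒜, #(A ∩ ⋃ j ∈ Iio (ρ A), X j : Set α) ≤ ℵ_ β := by
    intro A hA
    rw [inter_iUnion₂]
    refine mk_biUnion_le' h0 ((mk_set_le _).trans hι) _ (fun j hj => ?_)
    exact (hX3 j A hA).resolve_right (hρ2 A hA j hj)
  refine hglue ι inferInstance 𝒜 X ρ hAD (fun A hA => by rw [hA1 A hA]; exact hκ) hρ1 hkey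
    (fun i => ?_)
  have hlt : ty i.1 + 1 < b := ty_add_one_lt hlim i.1
  refine ih (ty i.1 + 1) (i.2.trans (by simp)) hlt _
    ((hAD.mono (fun A hA => hA.1)).cut _)
    (cut_card h0κ hκ (fun A hA => hA1 A hA.1) (fun A hA => ?_)) ?_
  · rw [← hA.2]; exact hkey A hA.1
  · rw [← add_assoc]
    refine mk_image_le.trans ((mk_le_mk_of_subset ?_).trans
      (count_succ gch hAD (ty i.1) (X i) (hX1 i)))
    rintro A ⟨hA, hAi⟩
    refine ⟨hA, ?_⟩
    have := hρ1 A hA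
    rw [hAi] at this
    rw [inter_eq_self_of_subset_left this, hA1 A hA]
    exact hκ.le

/-- **families of at most `ℵ_(β+b)` sets, `b ≤ ν`** -/
theorem induct (gch : GCH) {β : Ordinal.{0}} (hreg : (ℵ_ β).IsRegular) {a : Ordinal.{0}}
    (ha0 : 0 < a) {P : Set (Set α) → Prop} (hglue : Glue (ℵ_ β) P)
    (hbase : Stmt β (ℵ_ (β + a)) P a) (b : Ordinal.{0}) (hab : a ≤ b) (hb : b ≤ (ℵ_ β).ord) :
    Stmt β (ℵ_ (β + a)) P b := by
  have hκ : ℵ_ β < ℵ_ (β + a) := by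
    rw [aleph_lt_aleph]
    exact lt_add_of_pos_right β ha0
  induction b using WellFoundedLT.induction with
  | ind b ih =>
    rcases hab.eq_or_lt with rfl | hlt
    · exact hbase
    · rcases zero_or_succ_or_isSuccLimit b with h | ⟨c, rfl⟩ | hlim
      · exact absurd h (ha0.trans hlt).ne'
      · rw [Order.succ_eq_add_one] at hlt hb ih ⊢
        have hac : a ≤ c := Order.lt_add_one_iff.1 hlt
        have hcb : c < c + 1 := by simp
        exact step_succG gch hreg hκ hglue (ha0.trans_le hac) (hcb.trans_le hb)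
          (aleph_le_add hac) (ih c hcb hac (hcb.le.trans hb))
      · exact step_limitG gch hκ hglue hlt hb hlim le_rfl
          (fun c hac hcb => ih c hcb hac (hcb.le.trans hb))

/-- transversals for families of at most `ℵ_(β+b)` sets -/
theorem induct_Tr (gch : GCH) {β : Ordinal.{0}} (hreg : (ℵ_ β).IsRegular) {a : Ordinal.{0}}
    (ha0 : 0 < a) (ha : a < (ℵ_ β).ord) : Stmt (α := α) β (ℵ_ (β + a)) (Tr (ℵ_ β)) a := by
  have hκ : ℵ_ β < ℵ_ (β + a) := by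
    rw [aleph_lt_aleph]
    exact lt_add_of_pos_right β ha0
  intro 𝒜 hAD hA1 hc
  by_cases h1 : a = 1
  · subst h1
    refine Tr.of_EDn (aleph0_le_aleph β) (fun A hA => by rw [hA1 A hA]; exact hκ) ?_
    refine EDn.base (aleph0_le_aleph β) hAD ?_
    rwa [succ_aleph]
  · refine Tr.base (aleph0_le_aleph β) hκ hAD hA1 hc (fun X hX => ?_)
    -- there is `c` with `0 < c < a` and `#X ≤ ℵ_(β+c)`
    have h1a : 1 < a := lt_of_le_of_ne (Order.one_le_iff_pos.2 ha0) (Ne.symm h1)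
    obtain ⟨c, hc0, hca, hXc⟩ : ∃ c, 0 < c ∧ c < a ∧ #X ≤ ℵ_ (β + c) := by
      rcases zero_or_succ_or_isSuccLimit a with h | ⟨c, rfl⟩ | hlim
      · exact absurd h ha0.ne'
      · rw [Order.succ_eq_add_one] at h1a hX ⊢
        refine ⟨c, ?_, by simp, ?_⟩
        · have := Order.lt_add_one_iff.1 h1a
          exact zero_lt_one.trans_le this
        · rw [← add_assoc, ← succ_aleph] at hX
          exact Order.lt_succ_iff.1 hX
      · by_contra hcon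
        push Not at hcon
        have hnorm : IsNormal (fun o : Ordinal.{0} => ℵ_ (β + o)) :=
          isNormal_aleph.comp (isNormal_add_right β)
        refine absurd hX (not_lt.2 ?_)
        refine (hnorm.le_iff_forall_le hlim).2 (fun c hc => ?_)
        have hc1 : c + 1 < a := by
          have := hlim.succ_lt hc
          rwa [Order.succ_eq_add_one] at this
        exact (aleph_le_add (by simp)).trans (hcon (c + 1) (by simp) hc1).le
    refine (count gch hreg hc0 (hca.trans ha) hAD X hXc).trans_lt ?_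
    rw [aleph_lt_aleph]
    exact add_lt_add_right hca β

end SadG
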