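import Pool.Agent.Lib_helper4.SadG.Induct

/-! A family of `ℵ_(β+ν+1)` sets that does not have the gluable property `P` traps a stationary
set of points. -/

open Cardinal Order Set Ordinal

set_option linter.unusedSectionVars false

namespace SadG

open Sad

variable {α : Type}

/-- the ordinal `ω_(β+ν+1)`, `ν = ω_β` -/
abbrev KK (β : Ordinal.{0}) : Type := K (β + (ℵ_ β).ord)

/-- stationary ladder systems of type `ν⁺` with intersections smaller than `ν` -/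
def LSn (β : Ordinal.{0}) : Prop :=
  ∃ (S : Set (KK β)) (L : KK β → Set (KK β)), IsStationary S ∧
    (∀ γ ∈ S, #(L γ) = ℵ_ (β + 1) ∧ L γ ⊆ Iio γ ∧ ∀ δ < γ, #(L γ ∩ Iio δ : Set (KK β)) ≤ ℵ_ β) ∧
    ∀ γ ∈ S, ∀ γ' ∈ S, γ ≠ γ' → #(L γ ∩ L γ' : Set (KK β)) < ℵ_ β

theorem isSuccLimit_nu (β : Ordinal.{0}) : IsSuccLimit (ℵ_ β).ord :=
  isSuccLimit_ord (aleph0_le_aleph β)

theorem count_big (gch : GCH) {β : Ordinal.{0}} {𝒜 : Set (Set α)} (hAD : ADn (ℵ_ β) 𝒜)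
    (X : Set α) (hX : #X ≤ ℵ_ (β + (ℵ_ β).ord)) :
    #{A ∈ 𝒜 | ℵ_ β < #(A ∩ X : Set α)} ≤ ℵ_ (β + (ℵ_ β).ord) := by
  obtain ⟨Y, -, hYc, rfl⟩ := exists_layersG le_rfl (isSuccLimit_nu β) X hX
  have h0 : ℵ₀ ≤ ℵ_ β := aleph0_le_aleph β
  have hsub : {A ∈ 𝒜 | ℵ_ β < #(A ∩ ⋃ i, Y i : Set α)} ⊆
      ⋃ i, {A ∈ 𝒜 | ℵ_ β ≤ #(A ∩ Y i : Set α)} := by
    rintro A ⟨hA, hc⟩
    by_contra hcon
    simp only [mem_iUnion, not_exists] at hcon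
    refine absurd hc (not_lt.2 ?_)
    rw [inter_iUnion]
    refine mk_iUnion_le' h0 (mk_toType_le le_rfl) _ (fun i => ?_)
    by_contra hn
    exact hcon i ⟨hA, (not_le.1 hn).le⟩
  refine (mk_le_mk_of_subset hsub).trans ?_
  refine mk_iUnion_le' (aleph0_le_aleph _) ((mk_toType_le le_rfl).trans aleph_le_add') _
    (fun i => ?_)
  refine (count_succ gch hAD (ty i) (Y i) (hYc i)).trans ?_
  rw [add_assoc]
  exact aleph_le_add (ty_add_one_lt (isSuccLimit_nu β) i).le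

/-- a stationary set of trapped points gives ladders -/
theorem ladder_of_trap {β : Ordinal.{0}} {𝒜 : Set (Set α)} (hAD : ADn (ℵ_ β) 𝒜) (r : α → KK β)
    (hr : InjOn r (⋃₀ 𝒜)) (hstat : IsStationary (TrapG (ℵ_ β) 𝒜 r (fun s => ℵ_ β < #s))) :
    LSn β := by
  have hAU : ∀ A ∈ 𝒜, A ⊆ ⋃₀ 𝒜 := fun A hA => subset_sUnion_of_mem hA
  classical
  choose! A hA hA2 hA3 using fun γ (hγ : γ ∈ TrapG (ℵ_ β) 𝒜 r (fun s => ℵ_ β < #s)) => hγ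
  simp only [not_lt] at hA2
  have hinj : ∀ γ ∈ TrapG (ℵ_ β) 𝒜 r (fun s => ℵ_ β < #s),
      InjOn r (A γ ∩ r ⁻¹' Iio γ) := fun γ hγ =>
    hr.mono (inter_subset_left.trans (hAU _ (hA γ hγ)))
  refine ⟨_, fun γ => r '' (A γ ∩ r ⁻¹' Iio γ), hstat, fun γ hγ => ⟨?_, ?_, ?_⟩, ?_⟩
  · rw [mk_image_eq_of_injOn _ _ (hinj γ hγ)]
    apply le_antisymm
    · refine mk_le_of_rank r (hinj γ hγ) ?_
      rintro x ⟨hxA, hxγ⟩
      refine lt_of_le_of_lt ((mk_le_mk_of_subset ?_).trans (hA2 γ hγ (r x) hxγ)) ?_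
      · exact inter_subset_inter_left _ inter_subset_left
      · rw [aleph_lt_aleph]; simp
    · rw [← succ_aleph]
      exact Order.succ_le_of_lt (hA3 γ hγ)
  · rintro _ ⟨x, hx, rfl⟩; exact hx.2
  · intro δ hδ
    refine le_trans (mk_le_mk_of_subset ?_) ((mk_image_le (f := r)).trans (hA2 γ hγ δ hδ))
    rintro _ ⟨⟨x, hx, rfl⟩, hxδ⟩
    exact ⟨x, ⟨hx.1, hxδ⟩, rfl⟩
  · intro γ hγ γ' hγ' hne
    have hneA : A γ ≠ A γ' := by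
      intro heq
      rcases lt_or_gt_of_ne hne with h | h
      · exact absurd (hA3 γ hγ) (not_lt.2 (heq ▸ hA2 γ' hγ' γ h))
      · exact absurd (hA3 γ' hγ') (not_lt.2 (heq ▸ hA2 γ hγ γ' h))
    refine lt_of_le_of_lt ?_ (hAD _ (hA γ hγ) _ (hA γ' hγ') hneA)
    refine le_trans (mk_le_mk_of_subset ?_) (mk_image_le (f := r))
    rintro _ ⟨⟨x, hx, rfl⟩, ⟨y, hy, hxy⟩⟩
    have : y = x := hr (hAU _ (hA γ' hγ') hy.1) (hAU _ (hA γ hγ) hx.1) hxy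
    subst this
    exact ⟨y, ⟨hx.1, hy.1⟩, rfl⟩

theorem ladder_of_not (gch : GCH) {β : Ordinal.{0}} {κ : Cardinal.{0}} (hκ : ℵ_ β < κ)
    (hκb : κ ≤ ℵ_ (β + (ℵ_ β).ord)) {P : Set (Set α) → Prop} (hglue : Glue (ℵ_ β) P)
    (ih : Stmt β κ P (ℵ_ β).ord) {𝒜 : Set (Set α)} (hAD : ADn (ℵ_ β) 𝒜)
    (hA1 : ∀ A ∈ 𝒜, #A = κ) (hc : #𝒜 ≤ ℵ_ (β + (ℵ_ β).ord + 1)) (hP : ¬ P 𝒜) :
    LSn β := by
  have h0 : ℵ₀ ≤ ℵ_ β := aleph0_le_aleph β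
  have h0κ : ℵ₀ ≤ κ := h0.trans hκ.le
  have hlt : ℵ_ (β + (ℵ_ β).ord) < ℵ_ (β + (ℵ_ β).ord + 1) := by rw [aleph_lt_aleph]; simp
  have hU : #(⋃₀ 𝒜) ≤ #(KK β) := by
    rw [mk_K]
    refine card_sUnion_le' (aleph0_le_aleph _) hc (fun A hA => ?_)
    rw [hA1 A hA]
    exact hκb.trans hlt.le
  obtain ⟨r, hr⟩ := exists_injOn hU
  have hAU : ∀ A ∈ 𝒜, A ⊆ ⋃₀ 𝒜 := fun A hA => subset_sUnion_of_mem hA
  have hcount : ∀ γ : KK β, #{A ∈ 𝒜 | ℵ_ β < #(A ∩ r ⁻¹' Iio γ : Set α)} ≤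
      ℵ_ (β + (ℵ_ β).ord) := by
    intro γ
    have := count_big gch hAD (⋃₀ 𝒜 ∩ r ⁻¹' Iio γ)
      ((mk_inter_preimage_le hr _).trans (Iio_K _ γ))
    refine (mk_le_mk_of_subset ?_).trans this
    rintro A ⟨hA, hinf⟩
    refine ⟨hA, ?_⟩
    rwa [← inter_assoc, inter_eq_self_of_subset_left (hAU A hA)]
  refine ladder_of_trap hAD r hr ?_
  by_contra hns
  apply hP
  refine of_trap (κ := KK β) (aleph0_lt_cof_K _) hglue hAD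
    (fun A hA => by rw [hA1 A hA]; exact hκ) r (fun s => ℵ_ β < #s)
    (fun s t h hs => hs.trans_le (mk_le_mk_of_subset h))
    (fun β' => ?_) (fun A hA => ?_) (fun γ Z 𝒟 hD hDZ => ?_) hns
  · have h2 : #(⋃₀ {A ∈ 𝒜 | ℵ_ β < #(A ∩ r ⁻¹' Iio β' : Set α)}) ≤ ℵ_ (β + (ℵ_ β).ord) :=
      card_sUnion_le' (aleph0_le_aleph _) (hcount β')
        (fun A hA => by rw [hA1 A hA.1]; exact hκb)
    obtain ⟨b', hb'⟩ := exists_bound (κ := KK β)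
      (s := r '' (⋃₀ {A ∈ 𝒜 | ℵ_ β < #(A ∩ r ⁻¹' Iio β' : Set α)}))
      ((mk_image_le.trans h2).trans_lt (aleph_lt_cof_K _))
    exact ⟨b', fun A hA hinf x hx => hb' _ ⟨x, ⟨A, ⟨hA, hinf⟩, hx⟩, rfl⟩⟩
  · obtain ⟨b', hb'⟩ := exists_bound (κ := KK β) (s := r '' A)
      (mk_image_le.trans_lt (by rw [hA1 A hA]; exact hκb.trans_lt (aleph_lt_cof_K _)))
    exact ⟨b', fun x hx => hb' _ ⟨x, hx, rfl⟩⟩
  · refine ih _ ((hAD.mono hD).cut Z)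
      (cut_card h0κ hκ (fun A hA => hA1 A (hD hA)) (fun A hA => (hDZ A hA).2)) ?_
    refine mk_image_le.trans ((mk_le_mk_of_subset ?_).trans (hcount γ))
    intro A hA
    refine ⟨hD hA, ?_⟩
    rw [inter_eq_self_of_subset_left (hDZ A hA).1, hA1 A (hD hA)]
    exact hκ

end SadG
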