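import Pool.Agent.Lib_helper4.SadG.Equiv

/-! Families of sets of size `λ` and `λ⁺`, `λ = ℵ_(β+ν)`. -/

open Cardinal Order Set Ordinal

set_option linter.unusedSectionVars false

namespace SadG

open Sad

variable {α : Type}

/-- **a selection that is small on the members of `ℋ`** -/
theorem freeze2 [Nonempty α] {ν θ : Cardinal.{0}} (h0 : ℵ₀ ≤ ν) (hν : ν < θ) {𝒢 : Set (Set α)}
    (hG : #𝒢 ≤ θ) (B' : Set α → Set α) (hB : ∀ B ∈ 𝒢, θ ≤ #(B' B)) {ℋ : Set (Set α)}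
    (hcount : ∀ X : Set α, #X < θ → #{A ∈ ℋ | ν ≤ #(A ∩ X : Set α)} < θ)
    (hH : ∀ B ∈ 𝒢, ∀ A ∈ ℋ, #(B' B ∩ A : Set α) ≤ ν) :
    ∃ t : Set α → α, (∀ B ∈ 𝒢, t B ∈ B' B) ∧ ∀ A ∈ ℋ, #(t '' 𝒢 ∩ A : Set α) ≤ ν := by
  classical
  have h0θ : ℵ₀ ≤ θ := h0.trans hν.le
  rcases 𝒢.eq_empty_or_nonempty with hG0 | ⟨B₀, hB₀⟩
  · refine ⟨fun _ => Classical.arbitrary α, fun B hBG => ?_, fun A _ => ?_⟩
    · rw [hG0] at hBG; exact absurd hBG (Set.notMem_empty B)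
    · rw [hG0, image_empty, empty_inter, mk_eq_zero]; exact bot_le
  -- enumeration
  obtain ⟨E, hE1, hE2⟩ : ∃ E : θ.ord.ToType → Set α, (∀ ξ, E ξ ∈ 𝒢) ∧ ∀ A ∈ 𝒢, ∃ ξ, E ξ = A := by
    have hle : #𝒢 ≤ #(θ.ord.ToType) := by rwa [mk_ord_toType]
    rw [Cardinal.le_def] at hle
    obtain ⟨g⟩ := hle
    have : Nonempty 𝒢 := ⟨⟨B₀, hB₀⟩⟩
    refine ⟨fun ξ => (Function.invFun g ξ : 𝒢), fun ξ => (Function.invFun g ξ).2, fun A hA => ?_⟩
    refine ⟨g ⟨A, hA⟩, ?_⟩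
    show ((Function.invFun g (g ⟨A, hA⟩) : 𝒢) : Set α) = A
    rw [Function.leftInverse_invFun g.injective ⟨A, hA⟩]
  have wf : WellFounded ((· < ·) : θ.ord.ToType → θ.ord.ToType → Prop) := wellFounded_lt
  let pre : (ξ : θ.ord.ToType) → ((ζ : θ.ord.ToType) → ζ < ξ → α) → Set α :=
    fun ξ f => {x | ∃ ζ, ∃ h : ζ < ξ, f ζ h = x}
  let fr : Set α → Set α := fun X => ⋃ A ∈ {A ∈ ℋ | ν ≤ #(A ∩ X : Set α)}, A
  let step : (ξ : θ.ord.ToType) → ((ζ : θ.ord.ToType) → ζ < ξ → α) → α := fun ξ f =>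
    if h' : (B' (E ξ) \ fr (pre ξ f)).Nonempty then h'.some else Classical.arbitrary α
  let s : θ.ord.ToType → α := wf.fix step
  let P : θ.ord.ToType → Set α := fun ξ => s '' Iio ξ
  have hpre : ∀ ξ, pre ξ (fun ζ _ => s ζ) = P ξ := by
    intro ξ
    ext x
    constructor
    · rintro ⟨ζ, h, rfl⟩; exact ⟨ζ, h, rfl⟩
    · rintro ⟨ζ, h, rfl⟩; exact ⟨ζ, h, rfl⟩
  have hs : ∀ ξ, s ξ = step ξ (fun ζ _ => s ζ) := fun ξ => wf.fix_eq step ξ
  have hPcard : ∀ ξ, #(P ξ) < θ := by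
    intro ξ
    refine mk_image_le.trans_lt ?_
    have := mk_Iio_lt ξ (by simp)
    simpa using this
  have hfree : ∀ ξ, (B' (E ξ) \ fr (P ξ)).Nonempty := by
    intro ξ
    by_contra hcon
    rw [not_nonempty_iff_eq_empty, sdiff_eq_empty] at hcon
    have hsub : B' (E ξ) ⊆ ⋃ A ∈ {A ∈ ℋ | ν ≤ #(A ∩ P ξ : Set α)}, B' (E ξ) ∩ A := by
      intro x hx
      have := hcon hx
      simp only [fr, mem_iUnion] at this ⊢
      obtain ⟨A, hA, hxA⟩ := this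
      exact ⟨A, hA, hx, hxA⟩
    set ℱ := {A ∈ ℋ | ν ≤ #(A ∩ P ξ : Set α)} with hℱ
    have hlt : #(⋃ A ∈ ℱ, B' (E ξ) ∩ A : Set α) < θ := by
      set χ := max #ℱ ν with hχ
      have hχκ : χ < θ := max_lt (hcount _ (hPcard ξ)) hν
      refine lt_of_le_of_lt (mk_biUnion_le' (ν := χ) (h0.trans (le_max_right _ _))
        (le_max_left _ _) _ (fun A hA => ?_)) hχκ
      exact (hH _ (hE1 ξ) A hA.1).trans (le_max_right _ _)
    have := (mk_le_mk_of_subset hsub).trans_lt hlt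
    exact absurd (hB _ (hE1 ξ)) (not_le.2 this)
  have hs2 : ∀ ξ, s ξ ∈ B' (E ξ) \ fr (P ξ) := by
    intro ξ
    have h' := hfree ξ
    rw [← hpre ξ] at h' ⊢
    rw [hs ξ]
    simp only [step]
    rw [dif_pos h']
    exact h'.some_mem
  -- first indices
  have hex : ∀ x ∈ range s, ∃ ξ, s ξ = x ∧ x ∉ P ξ := by
    rintro x hx
    have hne : {ξ | s ξ = x}.Nonempty := hx
    refine ⟨wf.min _ hne, wf.min_mem {ξ | s ξ = x} hne, ?_⟩
    rintro ⟨ζ, hζ, hζx⟩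
    exact wf.not_lt_min {ξ | s ξ = x} (show ζ ∈ {ξ | s ξ = x} from hζx) hζ
  have hκne : Nonempty (θ.ord.ToType) := by
    rw [← mk_ne_zero_iff, mk_ord_toType]; exact (aleph0_pos.trans_le h0θ).ne'
  choose! φ hφ1 hφ2 using hex
  choose! ψ hψ using hE2
  refine ⟨fun B => s (ψ B), fun B hBG => ?_, fun A hA => ?_⟩
  · have := (hs2 (ψ B)).1
    rwa [hψ B hBG] at this
  · refine (mk_le_mk_of_subset (?_ : _ ⊆ range s ∩ A)).trans ?_
    · rintro _ ⟨⟨B, hBG, rfl⟩, hx⟩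
      exact ⟨⟨ψ B, rfl⟩, hx⟩
    · refine mk_le_of_rank (ν := ν) φ ?_ ?_
      · intro x hx y hy hxy
        rw [← hφ1 x hx.1, ← hφ1 y hy.1, hxy]
      · rintro x ⟨hxT, hxA⟩
        by_contra hge
        rw [not_lt] at hge
        have hsub : (range s ∩ A) ∩ φ ⁻¹' Iio (φ x) ⊆ A ∩ P (φ x) := by
          rintro y ⟨⟨hyT, hyA⟩, hy⟩
          exact ⟨hyA, ⟨φ y, hy, hφ1 y hyT⟩⟩
        have hfrz : A ∈ {A ∈ ℋ | ν ≤ #(A ∩ P (φ x) : Set α)} :=
          ⟨hA, hge.trans (mk_le_mk_of_subset hsub)⟩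
        have := (hs2 (φ x)).2
        rw [hφ1 x hxT] at this
        exact this (mem_biUnion hfrz hxA)

theorem count_lt (gch : GCH) {β : Ordinal.{0}} {ℋ : Set (Set α)} (hAD : ADn (ℵ_ β) ℋ)
    (X : Set α) (hX : #X < ℵ_ (β + (ℵ_ β).ord)) :
    #{A ∈ ℋ | ℵ_ β ≤ #(A ∩ X : Set α)} < ℵ_ (β + (ℵ_ β).ord) := by
  obtain ⟨c, hc, hXc⟩ := exists_of_lt_lambda hX
  have hXc' : #X ≤ ℵ_ (β + c + 1) := by
    refine hXc.trans ?_
    rw [aleph_le_aleph]; simp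
  refine (count_succ gch hAD c X hXc').trans_lt ?_
  rw [aleph_lt_aleph, add_assoc]
  have hc1 : c + 1 < (ℵ_ β).ord := by
    have := (isSuccLimit_nu β).succ_lt hc
    rwa [Order.succ_eq_add_one] at this
  exact add_lt_add_right hc1 β

/-- **members of size `λ⁺`** -/
theorem Tr_top (gch : GCH) {β : Ordinal.{0}} {𝒜 : Set (Set α)} (hAD : ADn (ℵ_ β) 𝒜)
    (hA1 : ∀ A ∈ 𝒜, #A = ℵ_ (β + (ℵ_ β).ord + 1)) (hc : #𝒜 ≤ ℵ_ (β + (ℵ_ β).ord + 1))
    (hLS : ¬ LSn β) : Tr (ℵ_ β) 𝒜 := by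
  classical
  rcases 𝒜.eq_empty_or_nonempty with hA0 | ⟨A₀, hA₀⟩
  · exact ⟨∅, fun A hA => by rw [hA0] at hA; exact absurd hA (Set.notMem_empty A)⟩
  have hα : Nonempty α := by
    have : #A₀ ≠ 0 := by rw [hA1 A₀ hA₀]; exact (aleph_pos _).ne'
    rw [mk_ne_zero_iff] at this
    obtain ⟨x⟩ := this
    exact ⟨x.1⟩
  set lam : Cardinal.{0} := ℵ_ (β + (ℵ_ β).ord) with hlam
  have h0 : ℵ₀ ≤ ℵ_ β := aleph0_le_aleph β
  have hνlam : ℵ_ β < lam := by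
    rw [hlam, aleph_lt_aleph]
    exact lt_add_of_pos_right β (isSuccLimit_nu β).bot_lt
  have h0lam : ℵ₀ ≤ lam := h0.trans hνlam.le
  have hsucc : ℵ_ (β + (ℵ_ β).ord + 1) = succ lam := (succ_aleph _).symm
  have hcof : Order.cof (KK β) = succ lam := by rw [cof_K, hsucc]
  have hlamcof : lam < Order.cof (KK β) := by rw [hcof]; exact Order.lt_succ _
  have hU : #(⋃₀ 𝒜) ≤ #(KK β) := by
    rw [mk_K]
    exact card_sUnion_le' (aleph0_le_aleph _) hc (fun A hA => (hA1 A hA).le)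
  obtain ⟨r, hr⟩ := exists_injOn hU
  have hAU : ∀ A ∈ 𝒜, A ⊆ ⋃₀ 𝒜 := fun A hA => subset_sUnion_of_mem hA
  let X : KK β → Set α := fun γ => r ⁻¹' Iio γ
  have hXmono : ∀ {x y : KK β}, x ≤ y → X x ⊆ X y := fun h => preimage_mono (Iio_subset_Iio h)
  have hAX : ∀ A ∈ 𝒜, ∀ γ, #(A ∩ X γ : Set α) ≤ lam := fun A hA γ =>
    (mk_inter_preimage_le (hr.mono (hAU A hA)) _).trans (Iio_K _ γ)
  have hcount : ∀ γ : KK β, #{A ∈ 𝒜 | ℵ_ β < #(A ∩ X γ : Set α)} ≤ lam := by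
    intro γ
    have := count_big gch hAD (⋃₀ 𝒜 ∩ r ⁻¹' Iio γ)
      ((mk_inter_preimage_le hr _).trans (Iio_K _ γ))
    refine (mk_le_mk_of_subset ?_).trans this
    rintro A ⟨hA, hinf⟩
    refine ⟨hA, ?_⟩
    rwa [← inter_assoc, inter_eq_self_of_subset_left (hAU A hA)]
  -- the closing function
  let Fr : Set α → KK β → Set α := fun A x => ⋃ B ∈ {B ∈ 𝒜 | ℵ_ β < #(B ∩ X x : Set α) ∧ B ≠ A}, B
  have hFr : ∀ A ∈ 𝒜, ∀ x, #(A ∩ Fr A x : Set α) ≤ lam := by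
    intro A hA x
    have : A ∩ Fr A x ⊆ ⋃ B ∈ {B ∈ 𝒜 | ℵ_ β < #(B ∩ X x : Set α) ∧ B ≠ A}, A ∩ B := by
      rintro y ⟨hyA, hy⟩
      simp only [Fr, mem_iUnion] at hy ⊢
      obtain ⟨B, hB, hyB⟩ := hy
      exact ⟨B, hB, hyA, hyB⟩
    refine (mk_le_mk_of_subset this).trans (mk_biUnion_le' h0lam ?_ _ (fun B hB => ?_))
    · refine (mk_le_mk_of_subset ?_).trans (hcount x)
      rintro B ⟨hB, hB2, -⟩
      exact ⟨hB, hB2⟩
    · exact (hAD A hA B hB.1 hB.2.2.symm).le.trans hνlam.le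
  have hg : ∀ x : KK β, ∃ y : KK β, ∀ A ∈ 𝒜, ℵ_ β < #(A ∩ X x : Set α) →
      lam ≤ #((A ∩ X y) \ (X x ∪ Fr A x) : Set α) := by
    intro x
    have hone : ∀ A ∈ 𝒜, ∃ y : KK β, lam ≤ #((A ∩ X y) \ (X x ∪ Fr A x) : Set α) := by
      intro A hA
      have hZ : #(A \ (X x ∪ Fr A x) : Set α) = ℵ_ (β + (ℵ_ β).ord + 1) := by
        refine mk_sdiff_eq (aleph0_le_aleph _) (ν := lam) (by rw [hsucc]; exact Order.lt_succ _)
          (hA1 A hA) ?_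
        rw [inter_union_distrib_left]
        exact mk_union_le' h0lam (hAX A hA x) (hFr A hA x)
      have hle : lam ≤ #(A \ (X x ∪ Fr A x) : Set α) := by
        rw [hZ, hsucc]; exact (Order.lt_succ _).le
      obtain ⟨Z', hZ'1, hZ'2⟩ := Cardinal.le_mk_iff_exists_subset.1 hle
      obtain ⟨y, hy⟩ := exists_bound (κ := KK β) (s := r '' Z')
        (mk_image_le.trans_lt (by rw [hZ'2]; exact hlamcof))
      refine ⟨y, ?_⟩
      rw [← hZ'2]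
      refine mk_le_mk_of_subset (fun z hz => ?_)
      exact ⟨⟨(hZ'1 hz).1, hy _ ⟨z, hz, rfl⟩⟩, (hZ'1 hz).2⟩
    choose! yA hyA using hone
    obtain ⟨y, hy⟩ := exists_bound (κ := KK β)
      (s := yA '' {A ∈ 𝒜 | ℵ_ β < #(A ∩ X x : Set α)})
      ((mk_image_le.trans (hcount x)).trans_lt hlamcof)
    refine ⟨y, fun A hA hbig => (hyA A hA).trans (mk_le_mk_of_subset ?_)⟩
    refine sdiff_subset_sdiff_left (inter_subset_inter_right _ (hXmono ?_))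
    exact (hy _ ⟨A, ⟨hA, hbig⟩, rfl⟩).le
  choose g hg using hg
  -- the club
  have h0cof := aleph0_lt_cof_K (β + (ℵ_ β).ord)
  have hns : ¬ IsStationary (TrapG (ℵ_ β) 𝒜 r (fun s => ℵ_ β < #s)) :=
    fun h => hLS (ladder_of_trap hAD r hr h)
  obtain ⟨C', hC', hdis⟩ := not_isStationary_iff.1 hns
  set C : Set (KK β) := C' ∩ {γ | ∀ x < γ, g x < γ} with hCdef
  have hC : IsClub C := hC'.inter h0cof.ne'
    (isClub_fun h0cof (fun x => (Iio_K _ x).trans_lt hlamcof) g)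
  have wf : WellFounded ((· < ·) : KK β → KK β → Prop) := wellFounded_lt
  have hnomax : ∀ x : KK β, ∃ y ∈ C, x < y := by
    intro x
    obtain ⟨b, hb⟩ := exists_bound (κ := KK β) (s := {x}) (by
      rw [mk_singleton]; exact one_lt_aleph0.trans h0cof)
    obtain ⟨y, hy, hby⟩ := hC.isCofinal b
    exact ⟨y, hy, (hb x rfl).trans_le hby⟩
  have hnx : ∀ x : KK β, ∃ y ∈ C, x < y ∧ ∀ z ∈ C, x < z → y ≤ z := by
    intro x
    obtain ⟨y, hy, hxy⟩ := hnomax x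
    have hne' : {y | y ∈ C ∧ x < y}.Nonempty := ⟨y, hy, hxy⟩
    refine ⟨wf.min _ hne', (wf.min_mem {y | y ∈ C ∧ x < y} hne').1,
      (wf.min_mem {y | y ∈ C ∧ x < y} hne').2, fun z hz hxz => ?_⟩
    exact not_lt.1 (wf.not_lt_min {y | y ∈ C ∧ x < y}
      (show z ∈ {y | y ∈ C ∧ x < y} from ⟨hz, hxz⟩))
  choose nx hnx1 hnx2 hnx3 using hnx
  have hcA : ∀ A ∈ 𝒜, ∃ c ∈ C, ℵ_ β < #(A ∩ X c : Set α) ∧
      ∀ j ∈ C, j < c → #(A ∩ X j : Set α) ≤ ℵ_ β := by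
    intro A hA
    have hex : ∃ c, c ∈ C ∧ ℵ_ β < #(A ∩ X c : Set α) := by
      by_contra hcon
      push Not at hcon
      have hle : #A ≤ succ (ℵ_ β) := by
        refine mk_le_of_rank r (hr.mono (hAU A hA)) (fun x hx => ?_)
        obtain ⟨c, hcC, hc⟩ := hC.isCofinal (r x)
        refine lt_of_le_of_lt ((mk_le_mk_of_subset ?_).trans (hcon c hcC)) (Order.lt_succ _)
        exact inter_subset_inter_right _ (hXmono hc)
      rw [hA1 A hA, hsucc] at hle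
      exact absurd ((Order.succ_le_of_lt hνlam).trans_lt (Order.lt_succ lam)) (not_lt.2 hle)
    have hne' : {c | c ∈ C ∧ ℵ_ β < #(A ∩ X c : Set α)}.Nonempty := hex
    refine ⟨wf.min _ hne', (wf.min_mem {c | c ∈ C ∧ ℵ_ β < #(A ∩ X c : Set α)} hne').1,
      (wf.min_mem {c | c ∈ C ∧ ℵ_ β < #(A ∩ X c : Set α)} hne').2, fun j hj hlt => ?_⟩
    by_contra hcon
    exact wf.not_lt_min {c | c ∈ C ∧ ℵ_ β < #(A ∩ X c : Set α)}
      (show j ∈ {c | c ∈ C ∧ ℵ_ β < #(A ∩ X c : Set α)} from ⟨hj, not_le.1 hcon⟩) hlt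
  choose! c hc1 hc2 hc3 using hcA
  -- predecessors
  have hpred : ∀ A ∈ 𝒜, (∀ j ∈ C, ¬ j < c A) ∨ ∃ δ ∈ C, δ < c A ∧ ∀ j ∈ C, j < c A → j ≤ δ := by
    intro A hA
    set J : Set (KK β) := {j | j ∈ C ∧ j < c A} with hJ
    by_cases hJe : J.Nonempty
    · right
      obtain ⟨δ, hδ⟩ := exists_isLUB (s := J) ⟨c A, fun j hj => hj.2.le⟩
      have hδC : δ ∈ C := hC.isLUB_mem (fun j hj => hj.1) hJe hδ
      have hδc : δ ≤ c A := hδ.2 (fun j hj => hj.2.le)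
      refine ⟨δ, hδC, lt_of_le_of_ne hδc ?_, fun j hj hlt => hδ.1 ⟨hj, hlt⟩⟩
      intro heq
      have htrap : c A ∈ TrapG (ℵ_ β) 𝒜 r (fun s => ℵ_ β < #s) := by
        refine ⟨A, hA, fun x hx => ?_, hc2 A hA⟩
        rw [← heq] at hx
        obtain ⟨j, hj, hxj, -⟩ := hδ.exists_between hx
        rw [not_lt]
        refine (mk_le_mk_of_subset ?_).trans (hc3 A hA j hj.1 hj.2)
        exact inter_subset_inter_right _ (hXmono hxj.le)
      exact Set.disjoint_left.1 hdis htrap (hc1 A hA).1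
    · left
      intro j hj hlt
      exact hJe ⟨j, hj, hlt⟩
  have hc4 : ∀ A ∈ 𝒜, ∀ x, x ∈ C → #(A ∩ X x : Set α) ≤ ℵ_ β → x < c A := by
    intro A hA x _ hx
    by_contra hcon
    rw [not_lt] at hcon
    have := (hc2 A hA).trans_le (mk_le_mk_of_subset (inter_subset_inter_right A (hXmono hcon)))
    exact absurd hx (not_le.2 this)
  -- selections
  have hsel : ∀ d : KK β, d ∈ C → ∃ t : Set α → α,
      (∀ B ∈ {B ∈ 𝒜 | c B = d}, t B ∈ (B ∩ X (nx d)) \ (X d ∪ Fr B d)) ∧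
      ∀ A ∈ {A ∈ 𝒜 | c A = nx d}, #(t '' {B ∈ 𝒜 | c B = d} ∩ A : Set α) ≤ ℵ_ β := by
    intro d hd
    refine freeze2 h0 hνlam ?_ (fun B => (B ∩ X (nx d)) \ (X d ∪ Fr B d)) ?_ ?_ ?_
    · refine (mk_le_mk_of_subset ?_).trans (hcount d)
      rintro B ⟨hB, hBd⟩
      refine ⟨hB, ?_⟩
      rw [← hBd]; exact hc2 B hB
    · rintro B ⟨hB, hBd⟩
      have hbig : ℵ_ β < #(B ∩ X d : Set α) := by rw [← hBd]; exact hc2 B hB
      refine (hg d B hB hbig).trans (mk_le_mk_of_subset ?_)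
      refine sdiff_subset_sdiff_left (inter_subset_inter_right _ (hXmono ?_))
      exact ((hnx1 d).2 d (hnx2 d)).le
    · intro Y hY
      exact count_lt gch (hAD.mono (fun A hA => hA.1)) Y hY
    · rintro B ⟨hB, hBd⟩ A ⟨hA, hAd⟩
      refine (mk_le_mk_of_subset (inter_subset_inter_left _
        (sdiff_subset.trans inter_subset_left))).trans (hAD B hB A hA ?_).le
      rintro rfl
      rw [hBd] at hAd
      exact absurd (hnx2 d) (by rw [← hAd]; exact lt_irrefl _)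
  choose! t ht1 ht2 using hsel
  let T : Set α := (fun B => t (c B) B) '' 𝒜
  refine ⟨T, fun A hA => ⟨?_, ?_⟩⟩
  · rw [pos_iff_ne_zero, mk_ne_zero_iff]
    exact ⟨⟨t (c A) A, ⟨A, hA, rfl⟩, (ht1 (c A) (hc1 A hA) A ⟨hA, rfl⟩).1.1⟩⟩
  · -- an element of `T ∩ A` other than the one of `A`
    have hother : ∀ B ∈ 𝒜, B ≠ A → t (c B) B ∈ A → c B < c A := by
      intro B hB hne hmem
      refine hc4 A hA (c B) (hc1 B hB) ?_
      by_contra hcon
      rw [not_le] at hcon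
      refine (ht1 (c B) (hc1 B hB) B ⟨hB, rfl⟩).2 (Or.inr ?_)
      exact mem_biUnion (show A ∈ {A ∈ 𝒜 | ℵ_ β < #(A ∩ X (c B) : Set α) ∧ A ≠ B} from
        ⟨hA, hcon, hne.symm⟩) hmem
    rcases hpred A hA with hnone | ⟨δ, hδC, hδ1, hδ2⟩
    · have hsub : T ∩ A ⊆ {t (c A) A} := by
        rintro _ ⟨⟨B, hB, rfl⟩, hBA⟩
        by_cases hne : B = A
        · rw [hne]; rfl
        · exact absurd (hother B hB hne hBA) (hnone _ (hc1 B hB))
      refine (mk_le_mk_of_subset hsub).trans ?_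
      rw [mk_singleton]
      exact one_le_aleph0.trans h0
    · have hnxδ : c A = nx δ := by
        apply le_antisymm
        · by_contra hcon
          rw [not_le] at hcon
          exact absurd (hnx2 δ) (not_lt.2 (hδ2 _ (hnx1 δ) hcon))
        · exact hnx3 δ _ (hc1 A hA) hδ1
      have hsub : T ∩ A ⊆ {t (c A) A} ∪ ((A ∩ X δ) ∪ (t δ '' {B ∈ 𝒜 | c B = δ} ∩ A)) := by
        rintro _ ⟨⟨B, hB, rfl⟩, hBA⟩
        by_cases hne : B = A
        · left; rw [hne]; rfl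
        · right
          have hlt := hother B hB hne hBA
          have hle := hδ2 _ (hc1 B hB) hlt
          rcases hle.lt_or_eq with h | h
          · left
            refine ⟨hBA, ?_⟩
            have h1 : nx (c B) ≤ δ := hnx3 _ δ hδC h
            exact hXmono h1 (ht1 (c B) (hc1 B hB) B ⟨hB, rfl⟩).1.2
          · right
            refine ⟨⟨B, ⟨hB, h⟩, ?_⟩, hBA⟩
            simp only [h]
      refine (mk_le_mk_of_subset hsub).trans (mk_union_le' h0 ?_ (mk_union_le' h0 ?_ ?_))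
      · rw [mk_singleton]
        exact one_le_aleph0.trans h0
      · exact hc3 A hA δ hδC hδ1
      · exact ht2 δ hδC A ⟨hA, hnxδ⟩

end SadG
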