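import Pool.Agent.Lib_helper4.SadG.Base

/-! The gluing lemma on a regular uncountable order, general form. -/

open Cardinal Order Set

set_option linter.unusedSectionVars false

namespace SadG

open Sad

variable {α : Type} {κ : Type} [LinearOrder κ] [WellFoundedLT κ]

/-- the set of trapped points -/
def TrapG (ν : Cardinal.{0}) (𝒜 : Set (Set α)) (r : α → κ) (big : Set α → Prop) : Set κ :=
  {γ | ∃ A ∈ 𝒜, (∀ β < γ, ¬ big (A ∩ r ⁻¹' Iio β)) ∧ ν < #(A ∩ r ⁻¹' Iio γ : Set α)}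

/-- **the gluing lemma** -/
theorem of_trap [Nonempty κ] (hc : ℵ₀ < Order.cof κ) {ν : Cardinal.{0}}
    {P : Set (Set α) → Prop} (hglue : Glue ν P) {𝒜 : Set (Set α)} (hAD : ADn ν 𝒜)
    (hlarge : ∀ A ∈ 𝒜, ν < #A) (r : α → κ)
    (big : Set α → Prop) (hbig : ∀ s t : Set α, s ⊆ t → big s → big t)
    (h1 : ∀ β : κ, ∃ b : κ, ∀ A ∈ 𝒜, big (A ∩ r ⁻¹' Iio β) → A ⊆ r ⁻¹' Iio b)
    (h2 : ∀ A ∈ 𝒜, ∃ b : κ, A ⊆ r ⁻¹' Iio b)
    (h3 : ∀ (γ : κ) (Z : Set α) (𝒟 : Set (Set α)), 𝒟 ⊆ 𝒜 →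
      (∀ A ∈ 𝒟, A ⊆ r ⁻¹' Iio γ ∧ #(A ∩ Z : Set α) ≤ ν) → P (cut 𝒟 Z))
    (h4 : ¬ IsStationary (TrapG ν 𝒜 r big)) : P 𝒜 := by
  classical
  obtain ⟨C', hC', hdis⟩ := not_isStationary_iff.1 h4
  set E : Set κ := {γ | ∀ β < γ, ∀ A ∈ 𝒜, big (A ∩ r ⁻¹' Iio β) → A ⊆ r ⁻¹' Iio γ} with hE
  have hEclub : IsClub E := by
    refine isClub_closure hc (fun β γ => ∀ A ∈ 𝒜, big (A ∩ r ⁻¹' Iio β) → A ⊆ r ⁻¹' Iio γ)
      h1 ?_
    intro x x' y y' hx hy h A hA hb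
    refine (h A hA (hbig _ _ ?_ hb)).trans (preimage_mono (Iio_subset_Iio hy))
    exact inter_subset_inter_right _ (preimage_mono (Iio_subset_Iio hx))
  set C := E ∩ C' with hCdef
  have hC : IsClub C := hEclub.inter hc.ne' hC'
  -- rank
  have hex : ∀ A ∈ 𝒜, ∃ c : C, A ⊆ r ⁻¹' Iio (c : κ) := by
    intro A hA
    obtain ⟨b, hb⟩ := h2 A hA
    obtain ⟨c, hc, hbc⟩ := hC.isCofinal b
    exact ⟨⟨c, hc⟩, hb.trans (preimage_mono (Iio_subset_Iio hbc))⟩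
  have hCne : Nonempty C := by
    obtain ⟨c, hc⟩ := hC.nonempty
    exact ⟨⟨c, hc⟩⟩
  have wfC : WellFounded ((· < ·) : C → C → Prop) := wellFounded_lt
  let ρ : Set α → C := fun A =>
    if h : ∃ c : C, A ⊆ r ⁻¹' Iio (c : κ) then wfC.min {c : C | A ⊆ r ⁻¹' Iio (c : κ)} h
    else Classical.arbitrary C
  have hρ1 : ∀ A ∈ 𝒜, A ⊆ r ⁻¹' Iio (ρ A : κ) := by
    intro A hA
    have h := hex A hA
    simp only [ρ, dif_pos h]
    exact wfC.min_mem {c : C | A ⊆ r ⁻¹' Iio (c : κ)} h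
  have hρ2 : ∀ A ∈ 𝒜, ∀ c : C, A ⊆ r ⁻¹' Iio (c : κ) → ρ A ≤ c := by
    intro A hA c hcA
    have h := hex A hA
    simp only [ρ, dif_pos h]
    exact not_lt.1 (wfC.not_lt_min {c : C | A ⊆ r ⁻¹' Iio (c : κ)} hcA)
  have hkey : ∀ A ∈ 𝒜, #(A ∩ ⋃ j ∈ Iio (ρ A), r ⁻¹' Iio (j : κ) : Set α) ≤ ν := by
    intro A hA
    set J : Set κ := {j | j ∈ C ∧ j < (ρ A : κ)} with hJ
    by_cases hJe : J.Nonempty
    · obtain ⟨δ, hδ⟩ := exists_isLUB (s := J) ⟨(ρ A : κ), fun j hj => hj.2.le⟩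
      have hδC : δ ∈ C := hC.isLUB_mem (fun j hj => hj.1) hJe hδ
      have hsub : (A ∩ ⋃ j ∈ Iio (ρ A), r ⁻¹' Iio (j : κ)) ⊆ A ∩ r ⁻¹' Iio δ := by
        rintro x ⟨hxA, hx⟩
        simp only [mem_iUnion] at hx
        obtain ⟨j, hj, hxj⟩ := hx
        refine ⟨hxA, ?_⟩
        have : (j : κ) ≤ δ := hδ.1 ⟨j.2, hj⟩
        exact lt_of_lt_of_le (show r x < (j : κ) from hxj) this
      refine (mk_le_mk_of_subset hsub).trans ?_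
      by_contra hnc
      rw [not_le] at hnc
      have hδtrap : δ ∉ TrapG ν 𝒜 r big := fun h => (Set.disjoint_left.1 hdis) h hδC.2
      have : ∃ β < δ, big (A ∩ r ⁻¹' Iio β) := by
        by_contra hcon
        push Not at hcon
        exact hδtrap ⟨A, hA, hcon, hnc⟩
      obtain ⟨β, hβ, hb⟩ := this
      obtain ⟨j, hjJ, hβj, -⟩ := hδ.exists_between hβ
      have hAj : A ⊆ r ⁻¹' Iio j := hjJ.1.1 β hβj A hA hb
      have := hρ2 A hA ⟨j, hjJ.1⟩ hAj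
      exact absurd hjJ.2 (not_lt.2 this)
    · have : (A ∩ ⋃ j ∈ Iio (ρ A), r ⁻¹' Iio (j : κ)) = ∅ := by
        rw [Set.eq_empty_iff_forall_notMem]
        rintro x ⟨-, hx⟩
        simp only [mem_iUnion] at hx
        obtain ⟨j, hj, -⟩ := hx
        exact hJe ⟨j, j.2, hj⟩
      rw [this, mk_eq_zero]; exact bot_le
  refine hglue C inferInstance 𝒜 (fun c => r ⁻¹' Iio (c : κ)) ρ hAD hlarge hρ1 hkey
    (fun c => ?_)
  refine h3 (c : κ) _ _ (fun A hA => hA.1) ?_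
  rintro A ⟨hA, hAc⟩
  rw [← hAc]
  exact ⟨hρ1 A hA, hkey A hA⟩

end SadG
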